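import Mathlib

set_option autoImplicit false

namespace TH994.Low

open Filter

theorem mu_lower (q k : ℕ) (hk : 2 ≤ k) (hkq : 2 * k ≤ q) :
    ((q : ℝ) / (2 * k)) ^ k ≤ (((q - 1) * q.choose (k - 1) : ℕ) : ℝ) := by
  obtain ⟨r, rfl⟩ : ∃ r, k = r + 1 := ⟨k - 1, by omega⟩
  have hqr : (0 : ℝ) < q := by
    have : 0 < q := by omega
    exact_mod_cast this
  have hkr : (0 : ℝ) < ((r + 1 : ℕ) : ℝ) := by positivity
  have h1 : (((q + 1 - r : ℕ) : ℝ)) ^ r ≤ (Nat.factorial r : ℝ) * (q.choose r : ℝ) := by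
    have := Nat.pow_le_choose (α := ℝ) r q
    rw [div_le_iff₀ (by positivity)] at this
    linarith
  have h2 : ((q : ℝ) / 2) ^ r ≤ (((q + 1 - r : ℕ) : ℝ)) ^ r := by
    apply pow_le_pow_left₀ (by positivity)
    rw [Nat.cast_sub (by omega)]
    push_cast
    have : (2 : ℝ) * ((r : ℝ) + 1) ≤ q := by exact_mod_cast hkq
    linarith
  have h3 : (Nat.factorial r : ℝ) ≤ ((r + 1 : ℕ) : ℝ) ^ r := by
    have : Nat.factorial r ≤ (r + 1) ^ r :=
      (Nat.factorial_le_pow r).trans (Nat.pow_le_pow_left (Nat.le_succ r) r)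
    exact_mod_cast this
  have h4 : ((q : ℝ) / 2) ^ r ≤ ((r + 1 : ℕ) : ℝ) ^ r * (q.choose r : ℝ) := by
    calc ((q : ℝ) / 2) ^ r ≤ (Nat.factorial r : ℝ) * (q.choose r : ℝ) := h2.trans h1
      _ ≤ _ := mul_le_mul_of_nonneg_right h3 (Nat.cast_nonneg _)
  have h5 : ((q : ℝ) / (2 * ((r + 1 : ℕ) : ℝ))) ^ r ≤ (q.choose r : ℝ) := by
    have : (q : ℝ) / (2 * ((r + 1 : ℕ) : ℝ)) = (q / 2) / ((r + 1 : ℕ) : ℝ) := by
      field_simp
    rw [this, div_pow, div_le_iff₀ (by positivity)]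
    linarith
  have h6 : (q : ℝ) / (2 * ((r + 1 : ℕ) : ℝ)) ≤ ((q - 1 : ℕ) : ℝ) := by
    rw [Nat.cast_sub (by omega), div_le_iff₀ (by positivity)]
    push_cast
    have e1 : (1 : ℝ) ≤ r := by
      have : 1 ≤ r := by omega
      exact_mod_cast this
    have e2 : (2 : ℝ) * ((r : ℝ) + 1) ≤ q := by exact_mod_cast hkq
    nlinarith
  rw [pow_succ]
  push_cast
  rw [mul_comm]
  apply mul_le_mul _ _ (by positivity) (by positivity)
  · exact_mod_cast h6
  · exact_mod_cast h5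

theorem choice (n : ℕ) (S ℓ : ℝ) (hL : Real.log n = S ^ 2 * ℓ) (hℓ : Real.log (Real.log n) = ℓ)
    (hS : 6 ≤ S) (hℓ1 : 1 ≤ ℓ) :
    ∃ h k : ℕ, 1 ≤ h ∧ 2 ≤ k ∧ k ≤ 2 ^ h ∧ 2 * (2 ^ h) ^ (k + 4) ≤ n ∧
      (n : ℝ) * Real.exp (-(8 * (S * ℓ))) ≤ (((2 ^ h - 1) * (2 ^ h).choose (k - 1) : ℕ) : ℝ) := by
  set L : ℝ := Real.log n with hLd
  set k : ℕ := ⌈S⌉₊ with hk
  have hk1 : S ≤ k := Nat.le_ceil S
  have hk2 : (k : ℝ) < S + 1 := Nat.ceil_lt_add_one (by linarith)
  have hk6 : 6 ≤ k := by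
    have : (6 : ℝ) ≤ k := hS.trans hk1
    exact_mod_cast this
  have hS2 : S ^ 2 ≤ L := by rw [hL]; nlinarith [sq_nonneg S]
  have hLpos : 0 < L := by nlinarith
  have hnpos : (0 : ℝ) < n := by
    by_contra hcon
    have h0 : (n : ℝ) = 0 := le_antisymm (not_lt.1 hcon) (Nat.cast_nonneg _)
    rw [hLd, h0, Real.log_zero] at hLpos
    exact lt_irrefl _ hLpos
  have hn2 : 2 ≤ n := by
    by_contra hcon
    have : n = 1 := by
      have : 0 < n := by exact_mod_cast hnpos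
      omega
    rw [hLd, this] at hLpos
    simp at hLpos
  have hlog2k : Real.log (2 * k) ≤ ℓ := by
    rw [← hℓ]
    apply Real.log_le_log
    · have : (6 : ℝ) ≤ k := by exact_mod_cast hk6
      linarith
    · nlinarith
  have hlog2 : Real.log 2 < 1 := by
    have := Real.log_two_lt_d9
    linarith
  have hlog2' : 0 < Real.log 2 := Real.log_pos (by norm_num)
  set h : ℕ := Nat.log 2 (n / 2) / (k + 4) with hh
  have hnh : n / 2 ≠ 0 := by omega
  have i1 : (2 ^ h) ^ (k + 4) ≤ n / 2 := by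
    rw [← pow_mul]
    calc 2 ^ (h * (k + 4)) ≤ 2 ^ (Nat.log 2 (n / 2)) := by
          apply Nat.pow_le_pow_right (by norm_num)
          rw [hh]
          exact Nat.div_mul_le_self _ _
      _ ≤ n / 2 := Nat.pow_log_le_self 2 hnh
  have i2 : n / 2 < (2 ^ (h + 1)) ^ (k + 4) := by
    rw [← pow_mul]
    calc n / 2 < 2 ^ (Nat.log 2 (n / 2) + 1) := Nat.lt_pow_succ_log_self (by norm_num) _
      _ ≤ 2 ^ ((h + 1) * (k + 4)) := by
          apply Nat.pow_le_pow_right (by norm_num)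
          have : Nat.log 2 (n / 2) / (k + 4) < h + 1 := by omega
          rw [Nat.div_lt_iff_lt_mul (by omega)] at this
          omega
  have j1 : 2 * (2 ^ h) ^ (k + 4) ≤ n := by omega
  have j2 : n ≤ 2 * (2 ^ (h + 1)) ^ (k + 4) := by omega
  set x : ℝ := Real.log ((2 : ℝ) ^ h) with hx
  -- log q is at most L / (k + 4)
  have e1 : (k + 4) * x ≤ L := by
    have h1 : (((2 ^ h) ^ (k + 4) : ℕ) : ℝ) ≤ n := by
      have : (2 ^ h) ^ (k + 4) ≤ n := by omega
      exact_mod_cast this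
    have h2 := Real.log_le_log (by positivity) h1
    push_cast at h2
    rw [Real.log_pow] at h2
    push_cast at h2
    exact h2
  have e2 : L ≤ Real.log 2 + (k + 4) * (x + Real.log 2) := by
    have h1 : (n : ℝ) ≤ ((2 * (2 ^ (h + 1)) ^ (k + 4) : ℕ) : ℝ) := by exact_mod_cast j2
    have h2 := Real.log_le_log hnpos h1
    push_cast at h2
    rw [Real.log_mul (by norm_num) (by positivity), Real.log_pow, pow_succ,
      Real.log_mul (by positivity) (by norm_num)] at h2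
    push_cast at h2
    exact h2
  have hk0 : (0 : ℝ) < k := by linarith
  have hx0 : 0 ≤ x := Real.log_nonneg (one_le_pow₀ (by norm_num))
  -- 2 k ≤ q
  have e3 : Real.log (2 * k) ≤ x := by
    by_contra hcon
    push Not at hcon
    have h1 : x < ℓ := lt_of_lt_of_le hcon hlog2k
    have h2 : (k + 4 : ℝ) * (x + Real.log 2) ≤ (S + 5) * (ℓ + 1) := by
      apply mul_le_mul (by linarith) (by linarith) (by linarith) (by linarith)
    have h3 : L ≤ 1 + (S + 5) * (ℓ + 1) := by linarith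
    rw [hL] at h3
    have h4 : 6 * S * ℓ ≤ S ^ 2 * ℓ := by
      have : 0 ≤ S * ℓ * (S - 6) := mul_nonneg (mul_nonneg (by linarith) (by linarith)) (by linarith)
      nlinarith
    have h5 : S + 5 ≤ 2 * S := by linarith
    have h6 : (S + 5) * (ℓ + 1) ≤ 2 * S * (2 * ℓ) := by
      apply mul_le_mul h5 (by linarith) (by linarith) (by linarith)
    have h7 : 6 ≤ S * ℓ := by nlinarith
    nlinarith
  have hkq : 2 * k ≤ 2 ^ h := by
    have h1 : (2 * k : ℝ) ≤ (2 : ℝ) ^ h := by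
      have := (Real.log_le_log_iff (by positivity) (by positivity)).1 e3
      exact this
    exact_mod_cast h1
  have hh1 : 1 ≤ h := by
    rcases Nat.eq_zero_or_pos h with h0 | h0
    · rw [h0] at hkq
      simp at hkq
      omega
    · exact h0
  refine ⟨h, k, hh1, by omega, by omega, j1, ?_⟩
  refine le_trans ?_ (mu_lower (2 ^ h) k (by omega) hkq)
  push_cast
  -- comparison of logarithms
  have hQ : (0 : ℝ) < (2 : ℝ) ^ h / (2 * k) := by positivity
  rw [← Real.log_le_log_iff (by positivity) (by positivity), Real.log_mul hnpos.ne'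
    (Real.exp_pos _).ne', Real.log_exp, Real.log_pow, Real.log_div (by positivity) (by positivity)]
  rw [← hx, ← hLd]
  -- 4 x ≤ 4 S ℓ
  have f1 : x ≤ S * ℓ := by
    have h1 : S * x ≤ S * (S * ℓ) := by
      calc S * x ≤ (k + 4) * x := mul_le_mul_of_nonneg_right (by linarith) hx0
        _ ≤ L := e1
        _ = S * (S * ℓ) := by rw [hL]; ring
    exact le_of_mul_le_mul_left h1 (by linarith)
  have f2 : (k : ℝ) * Real.log (2 * k) ≤ (S + 1) * ℓ :=
    mul_le_mul hk2.le hlog2k (Real.log_nonneg (by nlinarith)) (by linarith)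
  have f3 : Real.log 2 + (k + 4) * Real.log 2 ≤ S + 6 := by nlinarith
  have f4 : (S + 1) * ℓ ≤ 2 * (S * ℓ) := by nlinarith
  have f5 : S + 6 ≤ 2 * (S * ℓ) := by nlinarith
  nlinarith

theorem asym : ∀ᶠ n : ℕ in atTop, ∃ h k : ℕ, 1 ≤ h ∧ 2 ≤ k ∧ k ≤ 2 ^ h ∧
    2 * (2 ^ h) ^ (k + 4) ≤ n ∧
      (n : ℝ) * Real.exp (-(8 * Real.sqrt (Real.log n * Real.log (Real.log n)))) ≤
        (((2 ^ h - 1) * (2 ^ h).choose (k - 1) : ℕ) : ℝ) := by
  have t1 : Tendsto (fun n : ℕ => Real.log (n : ℝ)) atTop atTop :=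
    Real.tendsto_log_atTop.comp tendsto_natCast_atTop_atTop
  have t2 : Tendsto (fun n : ℕ => Real.log (Real.log (n : ℝ))) atTop atTop :=
    Real.tendsto_log_atTop.comp t1
  have t3 : ∀ᶠ y : ℝ in atTop, 36 * Real.log y ≤ y := by
    have h := (Real.isLittleO_log_id_atTop).bound (show (0 : ℝ) < 1 / 36 by norm_num)
    filter_upwards [h, eventually_ge_atTop (1 : ℝ)] with y hy h1
    rw [Real.norm_of_nonneg (Real.log_nonneg h1)] at hy
    simp only [id_eq] at hy
    rw [Real.norm_of_nonneg (by linarith)] at hy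
    linarith
  filter_upwards [t2.eventually (eventually_ge_atTop (1 : ℝ)), t1.eventually t3,
    t1.eventually (eventually_gt_atTop (0 : ℝ))] with n hℓ h36 hpos
  set L := Real.log (n : ℝ) with hL
  set ℓ := Real.log L with hℓd
  set S := Real.sqrt (L / ℓ) with hS
  have hℓ0 : 0 < ℓ := by linarith
  have hSq : S ^ 2 = L / ℓ := Real.sq_sqrt (by positivity)
  have hS6 : 6 ≤ S := by
    apply Real.le_sqrt_of_sq_le
    rw [le_div_iff₀ hℓ0]
    linarith
  obtain ⟨h, k, a1, a2, a3, a4, a5⟩ := choice n S ℓ (by rw [hSq, ← hL]; field_simp) hℓd.symm hS6 hℓ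
  refine ⟨h, k, a1, a2, a3, a4, ?_⟩
  have : Real.sqrt (L * ℓ) = S * ℓ := by
    rw [Real.sqrt_eq_iff_mul_self_eq (by positivity) (by positivity)]
    have : S * ℓ * (S * ℓ) = S ^ 2 * ℓ ^ 2 := by ring
    rw [this, hSq]
    field_simp
  rw [this]
  exact a5

end TH994.Low
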