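import Pool.Agent.TH994.Low.Clique

set_option autoImplicit false

namespace TH994.Low

open Finset

/-- A connected graph of maximum degree at most three with a potential which is nonnegative on a
hyperplane and has a kernel of dimension at least `μ`. -/
structure IsGood {V : Type} [Fintype V] (G : SimpleGraph V) (pot : V → ℝ) (μ : ℕ) : Prop where
  conn : G.Connected
  deg : ∀ v, (G.neighborSet v).ncard ≤ 3
  low : ∃ v, (G.neighborSet v).ncard ≤ 2
  pos : ∃ f : (V → ℝ) →ₗ[ℝ] ℝ, ∀ z, f z = 0 → 0 ≤ frm G pot z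
  ker : ∃ (J : Type) (_ : Fintype J) (b : J → V → ℝ), μ ≤ Fintype.card J ∧
    LinearIndependent ℝ b ∧ ∀ j v, row G pot (b j) v = 0

section

variable {Γ : Type} [AddCommGroup Γ] [Fintype Γ] {I : Type} [Fintype I]
  {V : Type} [Fintype V]

/-- The assembled graph: one cell for every element of the group `Γ`. -/
def asm (hΓ : ∀ u : Γ, u + u = 0) (g : I → Γ) (hg : ∀ i, g i ≠ 0) (G : SimpleGraph V)
    (port : I → V) : SimpleGraph (Γ × V) where
  Adj x y := (x.1 = y.1 ∧ G.Adj x.2 y.2) ∨ (∃ i, x.2 = port i ∧ y.2 = port i ∧ y.1 = x.1 + g i)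
  symm := ⟨by
    rintro x y (⟨h1, h2⟩ | ⟨i, h1, h2, h3⟩)
    · exact Or.inl ⟨h1.symm, G.adj_symm h2⟩
    · refine Or.inr ⟨i, h2, h1, ?_⟩
      rw [h3, add_assoc, hΓ, add_zero]⟩
  loopless := ⟨by
    rintro x (⟨_, h2⟩ | ⟨i, h1, h2, h3⟩)
    · exact G.loopless.irrefl _ h2
    · exact hg i (by simpa using h3)⟩

/-- The potential of the assembled graph. -/
noncomputable def apot (port : I → V) (pot : V → ℝ) (a : ℝ) (x : Γ × V) : ℝ := by
  classical
  exact pot x.2 + ∑ i, if x.2 = port i then (a - 1) else 0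

theorem row_asm (hΓ : ∀ u : Γ, u + u = 0) (g : I → Γ) (hg : ∀ i, g i ≠ 0) (G : SimpleGraph V)
    (port : I → V) (hport : Function.Injective port) (pot : V → ℝ) (a : ℝ) (z : Γ × V → ℝ)
    (u : Γ) (v : V) [DecidableEq V] :
    row (asm hΓ g hg G port) (apot port pot a) z (u, v) =
      row G pot (fun w => z (u, w)) v +
        ∑ i, (if v = port i then (a - 1) * z (u, port i) - z (u + g i, port i) else 0) := by
  classical
  unfold row apot
  have h1 : ∀ y : Γ × V, (if (asm hΓ g hg G port).Adj (u, v) y then z y else 0) =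
      (if u = y.1 ∧ G.Adj v y.2 then z y else 0) +
        ∑ i, (if v = port i then (if y = (u + g i, port i) then z y else 0) else 0) := by
    intro y
    by_cases hA : u = y.1 ∧ G.Adj v y.2
    · have : (asm hΓ g hg G port).Adj (u, v) y := Or.inl hA
      rw [if_pos this, if_pos hA, Finset.sum_eq_zero, add_zero]
      intro i _
      split_ifs with h1 h2
      · exfalso
        rw [h2] at hA
        apply hg i
        have := hA.1
        simpa using this
      · rfl
      · rfl
    · rw [if_neg hA, zero_add]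
      by_cases hB : ∃ i, v = port i ∧ y.2 = port i ∧ y.1 = u + g i
      · have : (asm hΓ g hg G port).Adj (u, v) y := Or.inr hB
        rw [if_pos this]
        obtain ⟨i, hi1, hi2, hi3⟩ := hB
        rw [Finset.sum_eq_single i]
        · rw [if_pos hi1, if_pos (Prod.ext hi3 hi2)]
        · intro j _ hj
          rw [if_neg]
          intro h
          exact hj (hport (h.symm.trans hi1))
        · intro h
          exact absurd (Finset.mem_univ i) h
      · have : ¬ (asm hΓ g hg G port).Adj (u, v) y := by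
          rintro (h | h)
          · exact hA h
          · exact hB h
        rw [if_neg this, Finset.sum_eq_zero]
        intro i _
        split_ifs with h1 h2
        · exfalso
          exact hB ⟨i, h1, by rw [h2], by rw [h2]⟩
        · rfl
        · rfl
  simp only [h1, Finset.sum_add_distrib]
  have h2 : ∑ y : Γ × V, (if u = y.1 ∧ G.Adj v y.2 then z y else 0) =
      ∑ w, (if G.Adj v w then z (u, w) else 0) := by
    rw [Fintype.sum_prod_type, Finset.sum_eq_single u]
    · simp
    · intro b _ hb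
      apply Finset.sum_eq_zero
      intro w _
      rw [if_neg]
      rintro ⟨h, -⟩
      exact hb h.symm
    · intro h
      exact absurd (Finset.mem_univ u) h
  have h3 : ∑ y : Γ × V, ∑ i, (if v = port i then (if y = (u + g i, port i) then z y else 0) else 0)
      = ∑ i, (if v = port i then z (u + g i, port i) else 0) := by
    rw [Finset.sum_comm]
    apply Finset.sum_congr rfl
    intro i _
    split_ifs with h
    · simp
    · simp
  rw [h2, h3]
  have h4 : ∑ i, (if v = port i then (a - 1) * z (u, port i) - z (u + g i, port i) else 0) =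
      (∑ i, (if v = port i then (a - 1) else 0)) * z (u, v) -
        ∑ i, (if v = port i then z (u + g i, port i) else 0) := by
    rw [Finset.sum_mul, ← Finset.sum_sub_distrib]
    apply Finset.sum_congr rfl
    intro i _
    split_ifs with h
    · rw [h]
    · simp
  rw [h4]
  have h5 : (∑ i, @ite ℝ (v = port i) (Classical.propDecidable _) (a - 1) 0) =
      ∑ i, (if v = port i then (a - 1) else 0) := by
    apply Finset.sum_congr rfl
    intro i _
    split_ifs <;> rfl
  rw [h5]
  ring

theorem frm_asm (hΓ : ∀ u : Γ, u + u = 0) (g : I → Γ) (hg : ∀ i, g i ≠ 0) (G : SimpleGraph V)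
    (port : I → V) (hport : Function.Injective port) (pot : V → ℝ) (a : ℝ) (z : Γ × V → ℝ) :
    frm (asm hΓ g hg G port) (apot port pot a) z =
      ∑ u, (frm G pot (fun w => z (u, w)) +
        ∑ i, z (u, port i) * ((a - 1) * z (u, port i) - z (u + g i, port i))) := by
  classical
  unfold frm
  rw [Fintype.sum_prod_type]
  apply Finset.sum_congr rfl
  intro u _
  simp only [row_asm hΓ g hg G port hport pot a z, mul_add, Finset.sum_add_distrib]
  congr 1
  simp only [Finset.mul_sum]
  rw [Finset.sum_comm]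
  apply Finset.sum_congr rfl
  intro i _
  rw [Finset.sum_eq_single (port i)]
  · simp
  · intro v _ hv
    rw [if_neg hv, mul_zero]
  · intro h
    exact absurd (Finset.mem_univ _) h

/-- The hypotheses on the characters. -/
structure Chars (Γ Λ : Type) [AddCommGroup Γ] [Fintype Γ] [Fintype Λ] (ψ : Λ → Γ → ℝ) : Prop where
  mul : ∀ l u v, ψ l (u + v) = ψ l u * ψ l v
  sq : ∀ l u, ψ l u * ψ l u = 1
  dual : ∀ u, u ≠ 0 → ∑ l, ψ l u = 0
  card : (Fintype.card Λ : ℝ) = Fintype.card Γ
  orth : ∀ l m, l ≠ m → ∑ u, ψ l u * ψ m u = 0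

variable {Λ : Type} [Fintype Λ] {ψ : Λ → Γ → ℝ}

theorem Chars.zero (h : Chars Γ Λ ψ) (l : Λ) : ψ l 0 = 1 := by
  have h1 := h.mul l 0 0
  have h2 := h.sq l 0
  rw [add_zero] at h1
  rw [h1, h2]

theorem Chars.parseval (h : Chars Γ Λ ψ) (hΓ : ∀ u : Γ, u + u = 0) (x y : Γ → ℝ) :
    ∑ l, (∑ u, x u * ψ l u) * (∑ u, y u * ψ l u) = Fintype.card Γ * ∑ u, x u * y u := by
  classical
  have h1 : ∀ l, (∑ u, x u * ψ l u) * (∑ u, y u * ψ l u) =
      ∑ u, ∑ v, x u * y v * ψ l (u + v) := by
    intro l
    rw [Finset.sum_mul_sum]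
    apply Finset.sum_congr rfl
    intro u _
    apply Finset.sum_congr rfl
    intro v _
    rw [h.mul]
    ring
  simp only [h1]
  rw [Finset.sum_comm, Finset.mul_sum]
  apply Finset.sum_congr rfl
  intro u _
  rw [Finset.sum_comm]
  simp only [← Finset.mul_sum]
  rw [Finset.sum_eq_single u]
  · rw [hΓ]
    simp only [h.zero, Finset.sum_const, Finset.card_univ, nsmul_eq_mul, mul_one]
    rw [h.card]
    ring
  · intro v _ hv
    rw [h.dual, mul_zero]
    intro h0
    apply hv
    have : v = -u := by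
      rw [add_comm] at h0
      exact eq_neg_of_add_eq_zero_left h0
    rw [this]
    exact (eq_neg_of_add_eq_zero_left (hΓ u)).symm
  · intro h'
    exact absurd (Finset.mem_univ u) h'

theorem one_div_char (h : Chars Γ Λ ψ) (l : Λ) (u : Γ) {a : ℝ} (ha : 1 < a) :
    1 / (a - ψ l u) = (a + ψ l u) / (a ^ 2 - 1) ∧ 0 < a - ψ l u := by
  have hs := h.sq l u
  have h1 : ψ l u ≤ 1 := by nlinarith [sq_nonneg (ψ l u - 1)]
  have hpos : 0 < a - ψ l u := by linarith
  have h2 : 0 < a ^ 2 - 1 := by nlinarith
  refine ⟨?_, hpos⟩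
  rw [div_eq_div_iff hpos.ne' h2.ne']
  nlinarith

theorem sum_one_div (h : Chars Γ Λ ψ) (g : I → Γ) (l : Λ) {a : ℝ} (ha : 1 < a) :
    ∑ i, 1 / (a - ψ l (g i)) = (Fintype.card I * a + ∑ i, ψ l (g i)) / (a ^ 2 - 1) := by
  have : ∀ i, 1 / (a - ψ l (g i)) = (a + ψ l (g i)) / (a ^ 2 - 1) := fun i =>
    (one_div_char h l (g i) ha).1
  simp only [this]
  rw [← Finset.sum_div, Finset.sum_add_distrib, Finset.sum_const, Finset.card_univ, nsmul_eq_mul]

/-- The form at a character. -/
theorem char_pos (h : Chars Γ Λ ψ) (g : I → Γ) (l : Λ) {a : ℝ} (ha : 1 < a)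
    (hl : Fintype.card I * a + ∑ i, ψ l (g i) ≤ a ^ 2 - 1) (y : I → ℝ) :
    (∑ i, y i) ^ 2 ≤ ∑ i, (a - ψ l (g i)) * y i ^ 2 := by
  have h2 : 0 < a ^ 2 - 1 := by nlinarith
  have hsum : ∑ i, 1 / (a - ψ l (g i)) ≤ 1 := by
    rw [sum_one_div h g l ha, div_le_one h2]
    exact hl
  have hcs : (∑ i, y i) ^ 2 ≤ (∑ i, (a - ψ l (g i)) * y i ^ 2) * ∑ i, 1 / (a - ψ l (g i)) := by
    apply Finset.sum_sq_le_sum_mul_sum_of_sq_le_mul
    · intro i _
      have := (one_div_char h l (g i) ha).2
      positivity
    · intro i _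
      have := (one_div_char h l (g i) ha).2
      positivity
    · intro i _
      have := (one_div_char h l (g i) ha).2
      apply le_of_eq
      field_simp
  have hnn : 0 ≤ ∑ i, (a - ψ l (g i)) * y i ^ 2 := by
    apply Finset.sum_nonneg
    intro i _
    have := (one_div_char h l (g i) ha).2
    positivity
  calc (∑ i, y i) ^ 2 ≤ (∑ i, (a - ψ l (g i)) * y i ^ 2) * ∑ i, 1 / (a - ψ l (g i)) := hcs
    _ ≤ (∑ i, (a - ψ l (g i)) * y i ^ 2) * 1 := mul_le_mul_of_nonneg_left hsum hnn
    _ = _ := mul_one _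

/-- The port form of the assembled graph is nonnegative on the hyperplane of zero sum. -/
theorem port_pos (h : Chars Γ Λ ψ) (hΓ : ∀ u : Γ, u + u = 0) (g : I → Γ) {a : ℝ} (ha : 1 < a)
    (hl : ∀ l, (∀ u, ψ l u = 1) ∨ Fintype.card I * a + ∑ i, ψ l (g i) ≤ a ^ 2 - 1)
    (x : Γ → I → ℝ) (hx : ∑ u, ∑ i, x u i = 0) :
    0 ≤ ∑ u, (a * ∑ i, x u i ^ 2 - (∑ i, x u i) ^ 2 - ∑ i, x u i * x (u + g i) i) := by
  classical
  set xh : I → Λ → ℝ := fun i l => ∑ u, x u i * ψ l u with hxh
  have hcard : (0 : ℝ) < Fintype.card Γ := by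
    have : 0 < Fintype.card Γ := Fintype.card_pos_iff.2 ⟨0⟩
    exact_mod_cast this
  have hshift : ∀ i l, ψ l (g i) * xh i l = ∑ u, x (u + g i) i * ψ l u := by
    intro i l
    rw [hxh]
    dsimp only
    rw [Finset.mul_sum]
    have e : ∑ u, ψ l (g i) * (x u i * ψ l u) = ∑ u, x u i * ψ l (u + g i) := by
      apply Finset.sum_congr rfl
      intro u _
      rw [h.mul]
      ring
    rw [e, ← Equiv.sum_comp (Equiv.addRight (g i))]
    apply Finset.sum_congr rfl
    intro u _
    simp only [Equiv.coe_addRight]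
    rw [add_assoc, hΓ, add_zero]
  have e1 : ∀ i, ∑ l, xh i l ^ 2 = Fintype.card Γ * ∑ u, x u i ^ 2 := by
    intro i
    have := h.parseval hΓ (fun u => x u i) (fun u => x u i)
    simp only [sq]
    exact this
  have e2 : ∀ i, ∑ l, ψ l (g i) * xh i l ^ 2 = Fintype.card Γ * ∑ u, x u i * x (u + g i) i := by
    intro i
    have := h.parseval hΓ (fun u => x u i) (fun u => x (u + g i) i)
    rw [← this]
    apply Finset.sum_congr rfl
    intro l _
    rw [← hshift i l, hxh]
    ring
  have e3 : ∑ l, (∑ i, xh i l) ^ 2 = Fintype.card Γ * ∑ u, (∑ i, x u i) ^ 2 := by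
    have := h.parseval hΓ (fun u => ∑ i, x u i) (fun u => ∑ i, x u i)
    simp only [sq]
    rw [← this]
    apply Finset.sum_congr rfl
    intro l _
    have : ∑ i, xh i l = ∑ u, (∑ i, x u i) * ψ l u := by
      rw [hxh]
      dsimp only
      rw [Finset.sum_comm]
      apply Finset.sum_congr rfl
      intro u _
      rw [Finset.sum_mul]
    rw [this]
  have key : (Fintype.card Γ : ℝ) *
      ∑ u, (a * ∑ i, x u i ^ 2 - (∑ i, x u i) ^ 2 - ∑ i, x u i * x (u + g i) i) =
      ∑ l, (∑ i, (a - ψ l (g i)) * xh i l ^ 2 - (∑ i, xh i l) ^ 2) := by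
    rw [Finset.sum_sub_distrib, Finset.sum_sub_distrib, mul_sub, mul_sub, Finset.sum_sub_distrib,
      e3]
    have f1 : ∑ l, ∑ i, (a - ψ l (g i)) * xh i l ^ 2 =
        a * ∑ i, ∑ l, xh i l ^ 2 - ∑ i, ∑ l, ψ l (g i) * xh i l ^ 2 := by
      rw [Finset.sum_comm, Finset.mul_sum, ← Finset.sum_sub_distrib]
      apply Finset.sum_congr rfl
      intro i _
      rw [Finset.mul_sum, ← Finset.sum_sub_distrib]
      apply Finset.sum_congr rfl
      intro l _
      ring
    rw [f1]
    simp only [e1, e2]
    have f2 : ∑ u, a * ∑ i, x u i ^ 2 = a * ∑ i, ∑ u, x u i ^ 2 := by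
      rw [← Finset.mul_sum, Finset.sum_comm]
    have f3 : ∑ u, ∑ i, x u i * x (u + g i) i = ∑ i, ∑ u, x u i * x (u + g i) i :=
      Finset.sum_comm
    rw [f2, f3, ← Finset.mul_sum, ← Finset.mul_sum]
    ring
  have hnn : 0 ≤ ∑ l, (∑ i, (a - ψ l (g i)) * xh i l ^ 2 - (∑ i, xh i l) ^ 2) := by
    apply Finset.sum_nonneg
    intro l _
    rcases hl l with h1 | h1
    · have hz : ∑ i, xh i l = 0 := by
        rw [hxh]
        dsimp only
        simp only [h1, mul_one]
        rw [Finset.sum_comm]
        exact hx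
      rw [hz]
      have : 0 ≤ ∑ i, (a - ψ l (g i)) * xh i l ^ 2 := by
        apply Finset.sum_nonneg
        intro i _
        have := (one_div_char h l (g i) ha).2
        positivity
      simpa using this
    · have := char_pos h g l ha h1 (fun i => xh i l)
      linarith
  rw [← key] at hnn
  exact (mul_nonneg_iff_of_pos_left hcard).1 hnn

theorem ncard_asm (hΓ : ∀ u : Γ, u + u = 0) (g : I → Γ) (hg : ∀ i, g i ≠ 0) (G : SimpleGraph V)
    (port : I → V) (hport : Function.Injective port) (x : Γ × V) :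
    (x.2 ∉ Set.range port →
      ((asm hΓ g hg G port).neighborSet x).ncard ≤ (G.neighborSet x.2).ncard) ∧
    ((asm hΓ g hg G port).neighborSet x).ncard ≤ (G.neighborSet x.2).ncard + 1 := by
  classical
  obtain ⟨u, v⟩ := x
  constructor
  · intro hv
    have : (asm hΓ g hg G port).neighborSet (u, v) ⊆ (fun w => (u, w)) '' (G.neighborSet v) := by
      rintro ⟨u', v'⟩ (⟨h1, h2⟩ | ⟨i, h1, h2, h3⟩)
      · exact ⟨v', h2, by rw [show u = u' from h1]⟩
      · exact absurd ⟨i, h1.symm⟩ hv
    refine (Set.ncard_le_ncard this (Set.toFinite _)).trans ?_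
    exact Set.ncard_image_le (Set.toFinite _)
  · by_cases hv : v ∈ Set.range port
    · obtain ⟨i, rfl⟩ := hv
      have : (asm hΓ g hg G port).neighborSet (u, port i) ⊆
          insert (u + g i, port i) ((fun w => (u, w)) '' (G.neighborSet (port i))) := by
        rintro ⟨u', v'⟩ (⟨h1, h2⟩ | ⟨j, h1, h2, h3⟩)
        · exact Or.inr ⟨v', h2, by rw [show u = u' from h1]⟩
        · left
          have hij : i = j := hport h1
          subst hij
          exact Prod.ext h3 h2
      refine (Set.ncard_le_ncard this (Set.toFinite _)).trans ?_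
      refine (Set.ncard_insert_le _ _).trans ?_
      exact Nat.add_le_add_right (Set.ncard_image_le (Set.toFinite _)) 1
    · have : (asm hΓ g hg G port).neighborSet (u, v) ⊆ (fun w => (u, w)) '' (G.neighborSet v) := by
        rintro ⟨u', v'⟩ (⟨h1, h2⟩ | ⟨i, h1, h2, h3⟩)
        · exact ⟨v', h2, by rw [show u = u' from h1]⟩
        · exact absurd ⟨i, h1.symm⟩ hv
      refine (Set.ncard_le_ncard this (Set.toFinite _)).trans ?_
      exact (Set.ncard_image_le (Set.toFinite _)).trans (Nat.le_succ _)

theorem conn_asm [DecidableEq I] (hΓ : ∀ u : Γ, u + u = 0) (g : I → Γ) (hg : ∀ i, g i ≠ 0)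
    (G : SimpleGraph V) (port : I → V) (pot : V → ℝ) [Nonempty I]
    (hn : IsNet (fun a b : I => if a = b then (0 : ℝ) else 1) (fun _ => 1) V G port pot)
    (hgen : AddSubgroup.closure (Set.range g) = ⊤) :
    (asm hΓ g hg G port).Connected := by
  classical
  set H := asm hΓ g hg G port with hH
  have hcell : ∀ u v w, G.Reachable v w → H.Reachable (u, v) (u, w) := by
    intro u v w h
    let f : G →g H := ⟨fun w => (u, w), fun {x y} hxy => Or.inl ⟨rfl, hxy⟩⟩
    exact h.map f
  have hports : ∀ i j, G.Reachable (port i) (port j) := by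
    intro i j
    by_cases hij : i = j
    · rw [hij]
    · apply hn.conn
      rw [if_neg hij]
      norm_num
  let i0 : I := Classical.arbitrary I
  have hto : ∀ u v, H.Reachable (u, v) (u, port i0) := by
    intro u v
    obtain ⟨i, hi⟩ := hn.reach v
    exact hcell u v _ (hi.trans (hports i i0))
  let K : AddSubgroup Γ :=
    { carrier := {w | ∀ u, H.Reachable (u, port i0) (u + w, port i0)}
      zero_mem' := fun u => by rw [add_zero]
      add_mem' := fun {a b} ha hb u => by
        have := (ha u).trans (hb (u + a))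
        rwa [add_assoc] at this
      neg_mem' := fun {a} ha u => by
        have := ha (u + -a)
        rw [neg_add_cancel_right] at this
        exact this.symm }
  have hK : K = ⊤ := by
    rw [eq_top_iff, ← hgen, AddSubgroup.closure_le]
    rintro _ ⟨i, rfl⟩
    intro u
    have h1 : H.Reachable (u, port i0) (u, port i) := hcell u _ _ (hports i0 i)
    have h2 : H.Reachable (u, port i) (u + g i, port i) := by
      apply SimpleGraph.Adj.reachable
      exact Or.inr ⟨i, rfl, rfl, rfl⟩
    have h3 : H.Reachable (u + g i, port i) (u + g i, port i0) := hcell _ _ _ (hports i i0)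
    exact (h1.trans h2).trans h3
  have hne : Nonempty (Γ × V) := ⟨(0, port i0)⟩
  refine SimpleGraph.Connected.mk ?_
  rintro ⟨u, v⟩ ⟨u', v'⟩
  have hw : u' - u ∈ K := by rw [hK]; exact AddSubgroup.mem_top _
  have h1 : H.Reachable (u, port i0) (u + (u' - u), port i0) := hw u
  rw [add_sub_cancel] at h1
  exact ((hto u v).trans h1).trans (hto u' v').symm

theorem good_asm [DecidableEq I] (h : Chars Γ Λ ψ) (hΓ : ∀ u : Γ, u + u = 0) (g : I → Γ)
    (hg : ∀ i, g i ≠ 0) (G : SimpleGraph V) (port : I → V) (pot : V → ℝ) [Nonempty I]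
    (hn : IsNet (fun a b : I => if a = b then (0 : ℝ) else 1) (fun _ => 1) V G port pot)
    (hgen : AddSubgroup.closure (Set.range g) = ⊤) {a : ℝ} (ha : 1 < a)
    (hl : ∀ l, (∀ u, ψ l u = 1) ∨ Fintype.card I * a + ∑ i, ψ l (g i) ≤ a ^ 2 - 1)
    (J : Finset Λ) (hJ : ∀ l ∈ J, Fintype.card I * a + ∑ i, ψ l (g i) = a ^ 2 - 1) :
    IsGood (asm hΓ g hg G port) (apot port pot a) J.card := by
  classical
  have ha2 : 0 < a ^ 2 - 1 := by nlinarith
  refine ⟨conn_asm hΓ g hg G port pot hn hgen, ?_, ?_, ?_, ?_⟩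
  · intro x
    by_cases hx : x.2 ∈ Set.range port
    · refine ((ncard_asm hΓ g hg G port hn.inj x).2).trans ?_
      obtain ⟨i, hi⟩ := hx
      rw [← hi]
      have := hn.degP i
      omega
    · exact ((ncard_asm hΓ g hg G port hn.inj x).1 hx).trans (hn.degI _ hx)
  · let i0 : I := Classical.arbitrary I
    refine ⟨(0, port i0), ((ncard_asm hΓ g hg G port hn.inj (0, port i0)).2).trans ?_⟩
    have := hn.degP i0
    simp only
    omega
  · refine ⟨∑ u : Γ, ∑ i : I, LinearMap.proj (R := ℝ) (φ := fun _ : Γ × V => ℝ) (u, port i), ?_⟩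
    intro z hz
    have hx : ∑ u, ∑ i, z (u, port i) = 0 := by
      simpa [LinearMap.sum_apply] using hz
    rw [frm_asm hΓ g hg G port hn.inj pot a z]
    have hp := port_pos h hΓ g ha hl (fun u i => z (u, port i)) hx
    refine hp.trans ?_
    apply Finset.sum_le_sum
    intro u _
    have h1 := hn.form (fun w => z (u, w))
    have h2 : ∑ i, ∑ j, (if i = j then (0 : ℝ) else 1) * z (u, port i) * z (u, port j) =
        (∑ i, z (u, port i)) ^ 2 - ∑ i, z (u, port i) ^ 2 := by
      rw [sq, Finset.sum_mul_sum, ← Finset.sum_sub_distrib]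
      apply Finset.sum_congr rfl
      intro i _
      have : ∀ j, (if i = j then (0 : ℝ) else 1) * z (u, port i) * z (u, port j) =
          z (u, port i) * z (u, port j) - if i = j then z (u, port i) ^ 2 else 0 := by
        intro j
        split_ifs with hij
        · rw [← hij]; ring
        · ring
      simp only [this, Finset.sum_sub_distrib, Finset.sum_ite_eq, Finset.mem_univ, if_true]
    have h1' : -∑ i, ∑ j, (if i = j then (0 : ℝ) else 1) * z (u, port i) * z (u, port j) ≤
        frm G pot (fun w => z (u, w)) := h1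
    rw [h2] at h1'
    have h3 : ∑ i, z (u, port i) * ((a - 1) * z (u, port i) - z (u + g i, port i)) =
        (a - 1) * ∑ i, z (u, port i) ^ 2 - ∑ i, z (u, port i) * z (u + g i, port i) := by
      rw [Finset.mul_sum, ← Finset.sum_sub_distrib]
      apply Finset.sum_congr rfl
      intro i _
      ring
    rw [h3]
    linarith [h1']
  · -- the kernel vectors
    have hz : ∀ l : Λ, ∃ ζ : V → ℝ, (∀ i, ζ (port i) = 1 / (a - ψ l (g i))) ∧
        (∀ v, v ∉ Set.range port → row G pot ζ v = 0) ∧
        ∀ i, row G pot ζ (port i) = -∑ j, (if i = j then (0 : ℝ) else 1) *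
          (1 / (a - ψ l (g j))) := fun l => hn.ext _
    choose ζ hζ1 hζ2 hζ3 using hz
    refine ⟨{l // l ∈ J}, inferInstance, fun l x => ψ l.1 x.1 * ζ l.1 x.2, ?_, ?_, ?_⟩
    · rw [Fintype.card_coe]
    · rw [Fintype.linearIndependent_iff]
      intro t ht m
      let i0 : I := Classical.arbitrary I
      have h1 : ∀ u, ∑ l : {l // l ∈ J}, t l * (1 / (a - ψ l.1 (g i0))) * ψ l.1 u = 0 := by
        intro u
        have := congrFun ht (u, port i0)
        simp only [Finset.sum_apply, Pi.smul_apply, smul_eq_mul, Pi.zero_apply, hζ1] at this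
        rw [← this]
        apply Finset.sum_congr rfl
        intro l _
        ring
      have h2 : ∑ u, (∑ l : {l // l ∈ J}, t l * (1 / (a - ψ l.1 (g i0))) * ψ l.1 u) * ψ m.1 u
          = 0 := by
        simp only [h1, zero_mul, Finset.sum_const_zero]
      simp only [Finset.sum_mul] at h2
      rw [Finset.sum_comm, Finset.sum_eq_single m] at h2
      · have h3 : ∑ u, t m * (1 / (a - ψ m.1 (g i0))) * ψ m.1 u * ψ m.1 u =
            t m * (1 / (a - ψ m.1 (g i0))) * Fintype.card Γ := by
          have : ∀ u, t m * (1 / (a - ψ m.1 (g i0))) * ψ m.1 u * ψ m.1 u =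
              t m * (1 / (a - ψ m.1 (g i0))) := by
            intro u
            rw [mul_assoc, h.sq, mul_one]
          simp only [this, Finset.sum_const, Finset.card_univ, nsmul_eq_mul]
          ring
        rw [h3] at h2
        have hpos := (one_div_char h m.1 (g i0) ha).2
        have hcard : (0 : ℝ) < Fintype.card Γ := by
          have : 0 < Fintype.card Γ := Fintype.card_pos_iff.2 ⟨0⟩
          exact_mod_cast this
        have h4 : (1 / (a - ψ m.1 (g i0))) * Fintype.card Γ ≠ 0 := by positivity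
        rw [mul_assoc] at h2
        exact (mul_eq_zero.1 h2).resolve_right h4
      · intro l _ hlm
        have : ∀ u, t l * (1 / (a - ψ l.1 (g i0))) * ψ l.1 u * ψ m.1 u =
            t l * (1 / (a - ψ l.1 (g i0))) * (ψ l.1 u * ψ m.1 u) := fun u => by ring
        simp only [this, ← Finset.mul_sum]
        rw [h.orth _ _ (fun h => hlm (Subtype.ext h)), mul_zero]
      · intro h'
        exact absurd (Finset.mem_univ _) h'
    · rintro ⟨l, hlJ⟩ ⟨u, v⟩
      rw [row_asm hΓ g hg G port hn.inj pot a]
      dsimp only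
      rw [row_smul]
      by_cases hv : v ∈ Set.range port
      · obtain ⟨i, rfl⟩ := hv
        rw [Finset.sum_eq_single i]
        · rw [if_pos rfl, hζ3, hζ1, h.mul]
          have hs : ∑ j, (if i = j then (0 : ℝ) else 1) * (1 / (a - ψ l (g j))) =
              ∑ j, 1 / (a - ψ l (g j)) - 1 / (a - ψ l (g i)) := by
            have : ∀ j, (if i = j then (0 : ℝ) else 1) * (1 / (a - ψ l (g j))) =
                1 / (a - ψ l (g j)) - if i = j then 1 / (a - ψ l (g j)) else 0 := by
              intro j
              split_ifs with hij <;> ring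
            simp only [this, Finset.sum_sub_distrib, Finset.sum_ite_eq, Finset.mem_univ, if_true]
          have hone : ∑ j, 1 / (a - ψ l (g j)) = 1 := by
            rw [sum_one_div h g l ha, hJ l hlJ, div_self ha2.ne']
          rw [hs, hone]
          have hpos := (one_div_char h l (g i) ha).2
          field_simp
          ring
        · intro j _ hj
          rw [if_neg]
          intro h'
          exact hj (hn.inj h'.symm)
        · intro h'
          exact absurd (Finset.mem_univ _) h'
      · rw [hζ2 l v hv, Finset.sum_eq_zero]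
        · ring
        · intro i _
          rw [if_neg]
          rintro rfl
          exact hv ⟨i, rfl⟩

end

end TH994.Low
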