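import Pool.Agent.TH994.Low.Ext

set_option autoImplicit false

namespace TH994.Low

open Finset Filter Topology

section general

variable {I : Type} [Fintype I] [DecidableEq I]

/-- Every response whose positivity pattern is exactly `p` has a network. -/
def Rl (p : I → I → Prop) (d : I → ℕ) (N : ℕ) : Prop :=
  ∀ W : I → I → ℝ, (∀ a b, W a b = W b a) → (∀ a, W a a = 0) → (∀ a b, p a b → 0 < W a b) →
    (∀ a b, ¬ p a b → W a b = 0) → Net W d N

omit [DecidableEq I] in
theorem Rl.mono {p q : I → I → Prop} {d d' : I → ℕ} {N N' : ℕ} (h : Rl p d N)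
    (hp : ∀ a b, q a b ↔ p a b) (hd : ∀ i, d i ≤ d' i) (hN : N ≤ N') : Rl q d' N' := by
  intro W h1 h2 h3 h4
  exact (h W h1 h2 (fun a b hab => h3 a b ((hp a b).2 hab))
    (fun a b hab => h4 a b (fun h' => hab ((hp a b).1 h')))).mono hd hN

omit [DecidableEq I] in
theorem rl_zero : Rl (fun _ _ : I => False) (fun _ => 0) (Fintype.card I) := by
  intro W _ _ _ h4
  have : W = fun _ _ => 0 := by
    funext a b
    exact h4 a b (fun h => h)
  rw [this]
  exact net_zero

theorem Rl.add {p : I → I → Prop} {d : I → ℕ} {N : ℕ} (h : Rl p d N) {i j : I} (hij : i ≠ j)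
    (hp : ¬ p i j) (hp' : ¬ p j i) :
    Rl (fun a b => p a b ∨ (a = i ∧ b = j) ∨ (a = j ∧ b = i))
      (fun a => d a + if a = i ∨ a = j then 1 else 0) (N + 1) := by
  intro W hs h0 hpos hzero
  have hβ : 0 < W i j := hpos i j (Or.inr (Or.inl ⟨rfl, rfl⟩))
  have hnet := h (fun a b => if (a = i ∧ b = j) ∨ (a = j ∧ b = i) then 0 else W a b) ?_ ?_ ?_ ?_
  · have := hnet.add hij hβ
    convert this using 1
    funext a b
    by_cases h1 : a = i ∧ b = j
    · rw [if_pos (Or.inl h1), h1.1, h1.2]
      simp [hij]
    · by_cases h2 : a = j ∧ b = i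
      · rw [if_pos (Or.inr h2), h2.1, h2.2]
        simp [hij.symm, hs j i]
      · rw [if_neg (by rintro (h | h); exacts [h1 h, h2 h])]
        have e1 : (if a = i then (if b = j then W i j else 0) else 0) = 0 := by
          split_ifs with h3 h4
          · exact absurd ⟨h3, h4⟩ h1
          · rfl
          · rfl
        have e2 : (if a = j then (if b = i then W i j else 0) else 0) = 0 := by
          split_ifs with h3 h4
          · exact absurd ⟨h3, h4⟩ h2
          · rfl
          · rfl
        rw [e1, e2]
        ring
  · intro a b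
    have : ((a = i ∧ b = j) ∨ (a = j ∧ b = i)) ↔ ((b = i ∧ a = j) ∨ (b = j ∧ a = i)) := by tauto
    simp only [this, hs a b]
  · intro a
    rw [h0, ite_self]
  · intro a b hab
    rw [if_neg]
    · exact hpos a b (Or.inl hab)
    · rintro (⟨rfl, rfl⟩ | ⟨rfl, rfl⟩)
      · exact hp hab
      · exact hp' hab
  · intro a b hab
    split_ifs with h1
    · rfl
    · apply hzero
      rintro (h2 | h2)
      · exact hab h2
      · exact h1 h2

theorem Rl.extend {p : I → I → Prop} {d : I → ℕ} {N : ℕ} (h : Rl p d N) (j : I) (hd : d j ≤ 2)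
    (hirr : ∀ a, ¬ p a a) (hcl : ∀ a b, a ≠ b → p a j → p j b → p a b) :
    Rl p (Function.update d j 1) (N + 1) := by
  classical
  intro W hs h0 hpos hzero
  have hev : ∀ᶠ α : ℝ in 𝓝[>] 0, ∀ a b, p a b → α * (W a j * W j b) < W a b := by
    rw [eventually_all]
    intro a
    rw [eventually_all]
    intro b
    by_cases hab : p a b
    · have hc : Tendsto (fun α : ℝ => α * (W a j * W j b)) (𝓝[>] 0) (𝓝 0) := by
        have : Tendsto (fun α : ℝ => α * (W a j * W j b)) (𝓝 0) (𝓝 (0 * (W a j * W j b))) :=
          tendsto_id.mul_const _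
        rw [zero_mul] at this
        exact this.mono_left nhdsWithin_le_nhds
      filter_upwards [hc.eventually (gt_mem_nhds (hpos a b hab))] with α hα _
      exact hα
    · exact Eventually.of_forall (fun α h => absurd h hab)
  obtain ⟨α, hα1, hα2⟩ := (hev.and self_mem_nhdsWithin).exists
  have hα : (0 : ℝ) < α := hα2
  refine Net.extend h0 hs j hα (h (unext W j α) (unext_symm W h0 hs j α)
    (unext_diag W h0 hs j α) ?_ ?_) hd
  · intro a b hab
    by_cases ha : a = j
    · subst ha
      rw [unext_j W h0]
      exact mul_pos hα (hpos _ _ hab)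
    · by_cases hb : b = j
      · subst hb
        rw [unext_j' W h0]
        exact mul_pos hα (hpos _ _ hab)
      · have hne : a ≠ b := by
          rintro rfl
          exact hirr a hab
        rw [unext_ne W j α a b ha hb hne]
        have := hα1 a b hab
        linarith [mul_assoc α (W a j) (W j b)]
  · intro a b hab
    by_cases ha : a = j
    · subst ha
      rw [unext_j W h0, hzero _ _ hab, mul_zero]
    · by_cases hb : b = j
      · subst hb
        rw [unext_j' W h0, hzero _ _ hab, mul_zero]
      · by_cases hne : a = b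
        · subst hne
          exact unext_diag W h0 hs j α a
        · rw [unext_ne W j α a b ha hb hne, hzero _ _ hab]
          by_cases h1 : p a j
          · by_cases h2 : p j b
            · exact absurd (hcl a b hne h1 h2) hab
            · rw [hzero _ _ h2]; ring
          · rw [hzero _ _ h1]; ring

end general

/-- The number of vertices used. -/
def cnt (n : ℕ) : ℕ → ℕ
  | 0 => n
  | k + 1 => cnt n k + 3 * k

theorem cnt_eq (n k : ℕ) : 2 * cnt n k + 3 * k = 2 * n + 3 * k ^ 2 := by
  induction k with
  | zero => simp [cnt]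
  | succ k ih =>
    simp only [cnt]
    ring_nf at ih ⊢
    omega

theorem cnt_le (n : ℕ) : cnt n n ≤ 2 * n ^ 2 := by
  have h := cnt_eq n n
  have h2 : n ≤ n ^ 2 := by nlinarith [Nat.zero_le n, sq n, Nat.le_mul_self n]
  nlinarith

/-- The pattern of the complete graph on the first `k` ports. -/
def kp {n : ℕ} (k : ℕ) (a b : Fin n) : Prop := a ≠ b ∧ a.val < k ∧ b.val < k

/-- The pattern: complete on the first `k` ports, and `k` joined to the first `j`. -/
def pt {n : ℕ} (k j : ℕ) (a b : Fin n) : Prop :=
  a ≠ b ∧ ((a.val < k ∧ b.val < k) ∨ (a.val = k ∧ b.val < j) ∨ (b.val = k ∧ a.val < j))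

theorem stepD {n k : ℕ} (hk : k < n)
    (hB : Rl (kp (n := n) k) (fun _ => 1) (cnt n k)) (j : ℕ) (hj : j ≤ k) :
    Rl (pt (n := n) k j) (fun a => if a.val < j then 2 else 1) (cnt n k + 2 * j) := by
  induction j with
  | zero =>
    refine hB.mono ?_ ?_ (by omega)
    · intro a b
      unfold pt kp
      constructor
      · rintro ⟨h1, h | h | h⟩
        · exact ⟨h1, h⟩
        · omega
        · omega
      · rintro ⟨h1, h⟩
        exact ⟨h1, Or.inl h⟩
    · intro i
      simp
  | succ j ih =>
    have ih' := ih (by omega)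
    set jj : Fin n := ⟨j, by omega⟩ with hjj
    set kk : Fin n := ⟨k, hk⟩ with hkk
    have hne : jj ≠ kk := by
      rw [hjj, hkk]
      intro h
      have := congrArg Fin.val h
      simp only at this
      omega
    have h1 := ih'.add (i := jj) (j := kk) hne
      (by
        rintro ⟨-, h | h | h⟩ <;> simp only [hjj, hkk] at h <;> omega)
      (by
        rintro ⟨-, h | h | h⟩ <;> simp only [hjj, hkk] at h <;> omega)
    have h2 : Rl (pt (n := n) k (j + 1))
        (fun a => (if a.val < j then 2 else 1) + if a = jj ∨ a = kk then 1 else 0)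
        (cnt n k + 2 * j + 1) := by
      refine h1.mono ?_ (fun i => le_refl _) (le_refl _)
      intro a b
      unfold pt
      simp only [Fin.ext_iff, hjj, hkk, ne_eq]
      omega
    have h3 := h2.extend kk ?_ ?_ ?_
    · refine h3.mono (fun a b => Iff.rfl) ?_ (by omega)
      intro a
      by_cases ha : a = kk
      · rw [ha, Function.update_self]
        split_ifs <;> omega
      · rw [Function.update_of_ne ha]
        simp only [ha, or_false]
        simp only [Fin.ext_iff, hjj]
        split_ifs <;> omega
    · simp only [hkk]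
      split_ifs <;> omega
    · intro a h
      exact h.1 rfl
    · intro a b hab h1 h2
      unfold pt at h1 h2 ⊢
      simp only [Fin.ext_iff, hkk, ne_eq] at h1 h2 hab ⊢
      omega

theorem stepC {n k : ℕ} (hk : k < n)
    (hB : Rl (kp (n := n) k) (fun _ => 1) (cnt n k)) (t : ℕ) (ht : t ≤ k) :
    Rl (kp (n := n) (k + 1)) (fun a => if a.val < t then 1 else if a.val < k then 2 else 1)
      (cnt n k + 2 * k + t) := by
  induction t with
  | zero =>
    refine (stepD hk hB k (le_refl k)).mono ?_ ?_ (by omega)
    · intro a b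
      unfold pt kp
      simp only [Fin.ext_iff, ne_eq]
      omega
    · intro i
      simp
  | succ t ih =>
    have ih' := ih (by omega)
    set tt : Fin n := ⟨t, by omega⟩ with htt
    have h3 := ih'.extend tt ?_ ?_ ?_
    · refine h3.mono (fun a b => Iff.rfl) ?_ (by omega)
      intro a
      by_cases ha : a = tt
      · rw [ha, Function.update_self]
        split_ifs <;> omega
      · rw [Function.update_of_ne ha]
        simp only [Fin.ext_iff, htt] at ha
        split_ifs <;> omega
    · split_ifs <;> omega
    · intro a h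
      exact h.1 rfl
    · intro a b hab h1 h2
      unfold kp at h1 h2 ⊢
      exact ⟨hab, h1.2.1, h2.2.2⟩

theorem stepB {n : ℕ} (k : ℕ) (hk : k ≤ n) : Rl (kp (n := n) k) (fun _ => 1) (cnt n k) := by
  induction k with
  | zero =>
    refine rl_zero.mono ?_ (fun i => by omega) (by simp [cnt])
    intro a b
    unfold kp
    constructor
    · rintro ⟨-, h, -⟩
      omega
    · exact fun h => h.elim
  | succ k ih =>
    refine (stepC (by omega) (ih (by omega)) k (le_refl k)).mono (fun a b => Iff.rfl) ?_ ?_
    · intro i
      split_ifs <;> omega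
    · simp only [cnt]
      omega

theorem net_clique_fin (n : ℕ) :
    Net (fun a b : Fin n => if a = b then (0 : ℝ) else 1) (fun _ => 1) (2 * n ^ 2) := by
  refine ((stepB n (le_refl n)) _ ?_ ?_ ?_ ?_).mono (fun i => le_refl _) (cnt_le n)
  · intro a b
    simp only [eq_comm]
  · intro a
    simp
  · intro a b hab
    rw [if_neg hab.1]
    norm_num
  · intro a b hab
    rw [if_pos]
    by_contra hne
    exact hab ⟨hne, a.isLt, b.isLt⟩

/-- The complete response on the ports `I`, with port degrees at most one. -/
theorem net_clique (I : Type) [Fintype I] [DecidableEq I] :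
    Net (fun a b : I => if a = b then (0 : ℝ) else 1) (fun _ => 1) (2 * Fintype.card I ^ 2) := by
  obtain ⟨V, _, G, port, pot, hc, hn⟩ := net_clique_fin (Fintype.card I)
  let e : I ≃ Fin (Fintype.card I) := Fintype.equivFin I
  have hr : Set.range (port ∘ e) = Set.range port := e.surjective.range_comp port
  refine ⟨V, _, G, port ∘ e, pot, hc, ?_⟩
  refine ⟨hn.inj.comp e.injective, ?_, fun i => hn.degP _, ?_, ?_, ?_, ?_⟩
  · rw [hr]; exact hn.degI
  · intro v
    obtain ⟨i, hi⟩ := hn.reach v
    exact ⟨e.symm i, by simpa using hi⟩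
  · intro i j hij
    apply hn.conn
    simpa using hij
  · intro z
    refine le_trans (le_of_eq ?_) (hn.form z)
    congr 1
    rw [← Equiv.sum_comp e]
    apply Finset.sum_congr rfl
    intro a _
    rw [← Equiv.sum_comp e]
    apply Finset.sum_congr rfl
    intro b _
    simp
  · intro x
    obtain ⟨z, hz1, hz2, hz3⟩ := hn.ext (x ∘ e.symm)
    refine ⟨z, ?_, ?_, ?_⟩
    · intro i
      have := hz1 (e i)
      simpa using this
    · rw [hr]; exact hz2
    · intro i
      have := hz3 (e i)
      simp only [Function.comp_apply]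
      rw [this]
      congr 1
      rw [← Equiv.sum_comp e]
      apply Finset.sum_congr rfl
      intro b _
      simp

end TH994.Low
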