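import Mathlib

set_option autoImplicit false

namespace TH994.Low

open Finset

/-- The value at `v` of the operator `diag(pot) - A_G` applied to `z`. -/
noncomputable def row {V : Type} [Fintype V] (G : SimpleGraph V) (pot : V → ℝ) (z : V → ℝ)
    (v : V) : ℝ := by
  classical
  exact pot v * z v - ∑ w, (if G.Adj v w then z w else 0)

/-- The quadratic form of `diag(pot) - A_G`. -/
noncomputable def frm {V : Type} [Fintype V] (G : SimpleGraph V) (pot : V → ℝ) (z : V → ℝ) : ℝ :=
  ∑ v, z v * row G pot z v

/-- The graph `G` with one more vertex `none`, joined to the vertices in `S`. -/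
def cone {V : Type} (G : SimpleGraph V) (S : Set V) : SimpleGraph (Option V) where
  Adj x y := match x, y with
    | some a, some b => G.Adj a b
    | some a, none => a ∈ S
    | none, some b => b ∈ S
    | none, none => False
  symm := ⟨by
    intro x y h
    match x, y, h with
    | some a, some b, h => exact G.adj_symm h
    | some a, none, h => exact h
    | none, some b, h => exact h⟩
  loopless := ⟨by
    intro x h
    match x, h with
    | some a, h => exact G.loopless.irrefl a h⟩

variable {V : Type}

@[simp] theorem cone_ss (G : SimpleGraph V) (S : Set V) (a b : V) :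
    (cone G S).Adj (some a) (some b) ↔ G.Adj a b := Iff.rfl

@[simp] theorem cone_sn (G : SimpleGraph V) (S : Set V) (a : V) :
    (cone G S).Adj (some a) none ↔ a ∈ S := Iff.rfl

@[simp] theorem cone_ns (G : SimpleGraph V) (S : Set V) (a : V) :
    (cone G S).Adj none (some a) ↔ a ∈ S := Iff.rfl

@[simp] theorem cone_nn (G : SimpleGraph V) (S : Set V) :
    ¬ (cone G S).Adj none none := fun h => h

/-- The new potential. -/
def cpot (pot e : V → ℝ) (p0 : ℝ) : Option V → ℝ
  | some v => pot v + e v
  | none => p0

theorem row_cone_some [Fintype V] (G : SimpleGraph V) (S : Set V) [DecidablePred (· ∈ S)]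
    (pot e : V → ℝ) (p0 : ℝ) (z : Option V → ℝ) (v : V) :
    row (cone G S) (cpot pot e p0) z (some v) =
      row G pot (fun w => z (some w)) v + e v * z (some v) - (if v ∈ S then z none else 0) := by
  classical
  unfold row
  rw [Fintype.sum_option]
  simp only [cone_ss, cone_sn, cpot]
  have : (if v ∈ S then z none else 0) = @ite ℝ (v ∈ S) (Classical.propDecidable _) (z none) 0 := by
    split_ifs <;> rfl
  rw [this]
  ring_nf

theorem row_cone_none [Fintype V] (G : SimpleGraph V) (S : Set V) [DecidablePred (· ∈ S)]
    (pot e : V → ℝ) (p0 : ℝ) (z : Option V → ℝ) :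
    row (cone G S) (cpot pot e p0) z none =
      p0 * z none - ∑ v, (if v ∈ S then z (some v) else 0) := by
  classical
  unfold row
  rw [Fintype.sum_option]
  simp only [cone_nn, cone_ns, cpot]
  simp only [if_false, zero_add]

theorem frm_cone [Fintype V] (G : SimpleGraph V) (S : Set V) [DecidablePred (· ∈ S)]
    (pot e : V → ℝ) (p0 : ℝ) (z : Option V → ℝ) :
    frm (cone G S) (cpot pot e p0) z =
      frm G pot (fun w => z (some w)) + ∑ v, e v * z (some v) ^ 2
        - 2 * z none * (∑ v, (if v ∈ S then z (some v) else 0)) + p0 * z none ^ 2 := by
  unfold frm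
  rw [Fintype.sum_option, row_cone_none]
  simp only [row_cone_some]
  have h : ∀ v : V, z (some v) * (row G pot (fun w => z (some w)) v + e v * z (some v)
      - (if v ∈ S then z none else 0)) =
      z (some v) * row G pot (fun w => z (some w)) v + e v * z (some v) ^ 2
        - z none * (if v ∈ S then z (some v) else 0) := by
    intro v
    split_ifs <;> ring
  simp only [h]
  rw [Finset.sum_sub_distrib, Finset.sum_add_distrib, ← Finset.mul_sum]
  ring

theorem nb_cone_some [Finite V] (G : SimpleGraph V) (S : Set V) (v : V) (hv : v ∉ S) :
    ((cone G S).neighborSet (some v)).ncard = (G.neighborSet v).ncard := by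
  have : (cone G S).neighborSet (some v) = some '' (G.neighborSet v) := by
    ext x
    cases x with
    | none => simp [hv]
    | some w => simp
  rw [this, Set.ncard_image_of_injective _ (Option.some_injective V)]

theorem nb_cone_some_le [Finite V] (G : SimpleGraph V) (S : Set V) (v : V) :
    ((cone G S).neighborSet (some v)).ncard ≤ (G.neighborSet v).ncard + 1 := by
  have : (cone G S).neighborSet (some v) ⊆ insert none (some '' (G.neighborSet v)) := by
    intro x hx
    cases x with
    | none => simp
    | some w =>
      right
      exact ⟨w, by simpa using hx, rfl⟩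
  refine (Set.ncard_le_ncard this (Set.toFinite _)).trans ?_
  refine (Set.ncard_insert_le _ _).trans ?_
  rw [Set.ncard_image_of_injective _ (Option.some_injective V)]

theorem nb_cone_none [Finite V] (G : SimpleGraph V) (S : Set V) :
    ((cone G S).neighborSet none).ncard = S.ncard := by
  have : (cone G S).neighborSet none = some '' S := by
    ext x
    cases x with
    | none => simp
    | some w => simp
  rw [this, Set.ncard_image_of_injective _ (Option.some_injective V)]

theorem reach_cone (G : SimpleGraph V) (S : Set V) {a b : V} (h : G.Reachable a b) :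
    (cone G S).Reachable (some a) (some b) := by
  let f : G →g cone G S := ⟨some, fun {x y} hxy => hxy⟩
  exact h.map f

/-- Reading a sum over a two element set. -/
theorem sum_pair [Fintype V] (a b : V) (hab : a ≠ b) [DecidablePred (· ∈ ({a, b} : Set V))]
    (f : V → ℝ) :
    ∑ v, (if v ∈ ({a, b} : Set V) then f v else 0) = f a + f b := by
  classical
  have : ∀ v : V, (if v ∈ ({a, b} : Set V) then f v else 0) =
      (if v = a then f v else 0) + (if v = b then f v else 0) := by
    intro v
    by_cases h1 : v = a
    · subst h1
      simp [hab]
    · by_cases h2 : v = b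
      · subst h2
        simp [h1]
      · simp [h1, h2]
  simp only [this, Finset.sum_add_distrib, Finset.sum_ite_eq', Finset.mem_univ, if_true]

theorem sum_single [Fintype V] (a : V) [DecidablePred (· ∈ ({a} : Set V))]
    (f : V → ℝ) :
    ∑ v, (if v ∈ ({a} : Set V) then f v else 0) = f a := by
  classical
  have : ∀ v : V, (if v ∈ ({a} : Set V) then f v else 0) = (if v = a then f v else 0) := by
    intro v
    by_cases h1 : v = a
    · subst h1
      simp
    · simp [h1]
  simp only [this, Finset.sum_ite_eq', Finset.mem_univ, if_true]

theorem row_smul [Fintype V] (G : SimpleGraph V) (pot z : V → ℝ) (c : ℝ) (v : V) :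
    row G pot (fun w => c * z w) v = c * row G pot z v := by
  classical
  unfold row
  rw [mul_sub, Finset.mul_sum]
  congr 1
  · ring
  · apply Finset.sum_congr rfl
    intro w _
    split_ifs <;> simp

theorem row_add [Fintype V] (G : SimpleGraph V) (pot z y : V → ℝ) (v : V) :
    row G pot (fun w => z w + y w) v = row G pot z v + row G pot y v := by
  classical
  unfold row
  have : ∀ w, (if G.Adj v w then z w + y w else 0) =
      (if G.Adj v w then z w else 0) + (if G.Adj v w then y w else 0) := by
    intro w
    split_ifs <;> simp
  simp only [this, Finset.sum_add_distrib]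
  ring

end TH994.Low
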