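import Pool.Agent.TH994.Low.Net

set_option autoImplicit false

namespace TH994.Low

open Finset

variable {I : Type} [Fintype I] [DecidableEq I]

/-- The response before the extension move at the port `j`. -/
noncomputable def unext (W : I → I → ℝ) (j : I) (α : ℝ) (a b : I) : ℝ :=
  W a b - α * W a j * W j b + (if a = j then (α - 1) * W j b else 0) +
    (if b = j then (α - 1) * W a j else 0) + (if a = b then α * W a j ^ 2 else 0)

omit [Fintype I] in
theorem unext_j (W : I → I → ℝ) (h0 : ∀ a, W a a = 0) (j : I) (α : ℝ) (b : I) :
    unext W j α j b = α * W j b := by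
  unfold unext
  by_cases hb : b = j
  · subst hb
    simp [h0]
  · rw [if_pos rfl, if_neg hb, if_neg (fun h => hb h.symm), h0]
    ring

omit [Fintype I] in
theorem unext_j' (W : I → I → ℝ) (h0 : ∀ a, W a a = 0) (j : I) (α : ℝ)
    (b : I) : unext W j α b j = α * W b j := by
  unfold unext
  by_cases hb : b = j
  · subst hb
    simp [h0]
  · rw [if_neg hb, if_pos rfl, if_neg hb, h0]
    ring

omit [Fintype I] in
theorem unext_ne (W : I → I → ℝ) (j : I) (α : ℝ) (a b : I) (ha : a ≠ j) (hb : b ≠ j)
    (hab : a ≠ b) : unext W j α a b = W a b - α * W a j * W j b := by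
  unfold unext
  rw [if_neg ha, if_neg hb, if_neg hab]
  ring

omit [Fintype I] in
theorem unext_diag (W : I → I → ℝ) (h0 : ∀ a, W a a = 0) (hs : ∀ a b, W a b = W b a) (j : I)
    (α : ℝ) (a : I) : unext W j α a a = 0 := by
  by_cases ha : a = j
  · subst ha
    rw [unext_j W h0, h0, mul_zero]
  · unfold unext
    rw [if_neg ha, if_neg ha, if_pos rfl, h0, hs j a]
    ring

omit [Fintype I] in
theorem unext_symm (W : I → I → ℝ) (h0 : ∀ a, W a a = 0) (hs : ∀ a b, W a b = W b a) (j : I)
    (α : ℝ) (a b : I) : unext W j α a b = unext W j α b a := by
  by_cases ha : a = j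
  · subst ha
    rw [unext_j W h0, unext_j' W h0, hs]
  · by_cases hb : b = j
    · subst hb
      rw [unext_j W h0, unext_j' W h0, hs]
    · by_cases hab : a = b
      · rw [hab]
      · rw [unext_ne W j α a b ha hb hab, unext_ne W j α b a hb ha (fun h => hab h.symm),
          hs a b, hs b j, hs j a]
        ring

/-- The value of the response on a vector changed at one port. -/
theorem sum_upd (W : I → I → ℝ) (X : I → ℝ) (j : I) (t : ℝ) (a : I) :
    ∑ b, W a b * (X b + if b = j then t else 0) = ∑ b, W a b * X b + W a j * t := by
  simp only [mul_add, Finset.sum_add_distrib, mul_ite, mul_zero, Finset.sum_ite_eq',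
    Finset.mem_univ, if_true]

theorem sum_unext (W : I → I → ℝ) (Y : I → ℝ) (j : I) (α : ℝ) (a : I) :
    ∑ b, unext W j α a b * Y b = ∑ b, W a b * Y b - α * W a j * (∑ b, W j b * Y b) +
      (if a = j then (α - 1) * ∑ b, W j b * Y b else 0) + (α - 1) * W a j * Y j +
      α * W a j ^ 2 * Y a := by
  unfold unext
  simp only [add_mul, sub_mul, ite_mul, zero_mul, Finset.sum_add_distrib, Finset.sum_sub_distrib,
    Finset.sum_ite_eq', Finset.mem_univ, if_true, Finset.sum_ite_eq]
  congr 1
  congr 1
  congr 1
  · congr 1
    rw [Finset.mul_sum]
    apply Finset.sum_congr rfl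
    intro b _
    ring
  · split_ifs with h
    · rw [← h, Finset.mul_sum, one_mul, ← Finset.sum_sub_distrib]
      apply Finset.sum_congr rfl
      intro b _
      ring
    · simp

/-- **Extension move**: attaching a new port to the old port `j`. -/
theorem Net.extend {W : I → I → ℝ} {d : I → ℕ} {N : ℕ} (h0 : ∀ a, W a a = 0)
    (hs : ∀ a b, W a b = W b a) (j : I) {α : ℝ} (hα : 0 < α)
    (h : Net (unext W j α) d N) (hd : d j ≤ 2) :
    Net W (Function.update d j 1) (N + 1) := by
  classical
  obtain ⟨V, _, G, port, pot, hc, hn⟩ := h
  set S : Set V := {port j} with hS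
  set c : I → ℝ := fun m => if m = j then α else α * W m j ^ 2 with hcdef
  set e : V → ℝ := fun v => ∑ m, (if v = port m then c m else 0) with he
  have hep : ∀ m, e (port m) = c m := by
    intro m
    rw [he]
    dsimp only
    simp only [hn.inj.eq_iff, Finset.sum_ite_eq, Finset.mem_univ, if_true]
  have he0 : ∀ v, v ∉ Set.range port → e v = 0 := by
    intro v hv
    rw [he]
    dsimp only
    apply Finset.sum_eq_zero
    intro m _
    rw [if_neg]
    rintro rfl
    exact hv ⟨m, rfl⟩
  have hmem : ∀ a, port a ∈ S ↔ a = j := by
    intro a
    simp [hS, hn.inj.eq_iff]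
  set port' : I → Option V := fun a => if a = j then none else some (port a) with hport'
  have hp'j : port' j = none := by simp [hport']
  have hp'n : ∀ a, a ≠ j → port' a = some (port a) := fun a ha => by simp [hport', ha]
  have hsome : ∀ v : V, some v ∉ Set.range port' → v = port j ∨ v ∉ Set.range port := by
    intro v hv
    by_contra hcon
    push Not at hcon
    obtain ⟨h1, a, ha⟩ := hcon
    apply hv
    have haj : a ≠ j := by
      rintro rfl
      exact h1 ha.symm
    exact ⟨a, by rw [hp'n a haj, ha]⟩
  have hjn : (cone G S).Reachable (some (port j)) none :=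
    SimpleGraph.Adj.reachable (show port j ∈ S by simp [hS])
  -- reachability between new ports follows from reachability between the old ones
  have hre : ∀ a b, G.Reachable (port a) (port b) → (cone G S).Reachable (port' a) (port' b) := by
    have key : ∀ a, (cone G S).Reachable (port' a) (some (port a)) := by
      intro a
      by_cases ha : a = j
      · subst ha
        rw [hp'j]
        exact hjn.symm
      · rw [hp'n a ha]
    intro a b hab
    exact ((key a).trans (reach_cone G S hab)).trans (key b).symm
  refine ⟨Option V, inferInstance, cone G S, port', cpot pot e (1 / α), ?_, ?_⟩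
  · rw [Fintype.card_option]; omega
  refine ⟨?_, ?_, ?_, ?_, ?_, ?_, ?_⟩
  · intro a b hab
    by_cases ha : a = j
    · by_cases hb : b = j
      · rw [ha, hb]
      · exfalso
        rw [ha, hp'j, hp'n b hb] at hab
        exact absurd hab (by simp)
    · by_cases hb : b = j
      · exfalso
        rw [hb, hp'j, hp'n a ha] at hab
        exact absurd hab (by simp)
      · rw [hp'n a ha, hp'n b hb] at hab
        exact hn.inj (Option.some_injective _ hab)
  · intro v hv
    cases v with
    | none => exact absurd ⟨j, hp'j⟩ hv
    | some v =>
      rcases hsome v hv with h | h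
      · rw [h]
        refine (nb_cone_some_le _ _ _).trans ?_
        have := hn.degP j
        omega
      · rw [nb_cone_some]
        · exact hn.degI v h
        · intro h'
          exact h ⟨j, h'.symm⟩
  · intro a
    by_cases ha : a = j
    · subst ha
      rw [hp'j, nb_cone_none, Function.update_self, hS, Set.ncard_singleton]
    · rw [hp'n a ha, Function.update_of_ne ha, nb_cone_some]
      · exact hn.degP a
      · rw [hmem]; exact ha
  · intro v
    cases v with
    | none => exact ⟨j, by rw [hp'j]⟩
    | some v =>
      obtain ⟨a, ha⟩ := hn.reach v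
      refine ⟨a, (reach_cone G S ha).trans ?_⟩
      by_cases haj : a = j
      · subst haj
        rw [hp'j]
        exact hjn
      · rw [hp'n a haj]
  · intro a b hab
    apply hre
    have hj1 : ∀ b, W j b ≠ 0 → G.Reachable (port j) (port b) := by
      intro b hb
      apply hn.conn
      rw [unext_j W h0]
      exact mul_ne_zero hα.ne' hb
    by_cases ha : a = j
    · subst ha
      exact hj1 b hab
    · by_cases hb : b = j
      · subst hb
        rw [hs] at hab
        exact (hj1 a hab).symm
      · by_cases h3 : W j a = 0 ∨ W j b = 0
        · apply hn.conn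
          have hne : a ≠ b := by
            rintro rfl
            exact hab (h0 a)
          rw [unext_ne W j α a b ha hb hne]
          have : α * W a j * W j b = 0 := by
            rcases h3 with h | h
            · rw [hs a j, h]; ring
            · rw [h]; ring
          rw [this, sub_zero]
          exact hab
        · push Not at h3
          exact (hj1 a h3.1).symm.trans (hj1 b h3.2)
  · intro z
    rw [frm_cone]
    set X : I → ℝ := fun a => z (port' a) with hX
    set r : ℝ := z none with hr
    set y : ℝ := z (some (port j)) with hy
    have hXj : X j = r := by rw [hX]; dsimp only; rw [hp'j]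
    have hY : ∀ a, z (some (port a)) = X a + if a = j then (y - r) else 0 := by
      intro a
      by_cases ha : a = j
      · subst ha
        rw [if_pos rfl, hXj]
        ring
      · rw [if_neg ha, add_zero, hX]
        dsimp only
        rw [hp'n a ha]
    set B : ℝ := ∑ b, W j b * X b with hB
    have h1 := hn.form (fun w => z (some w))
    have h2 : ∑ v, (if v ∈ S then z (some v) else 0) = y := sum_single _ _
    have h3 : ∑ v, e v * z (some v) ^ 2 = ∑ m, c m * z (some (port m)) ^ 2 := by
      rw [he]
      simp only [Finset.sum_mul]
      rw [Finset.sum_comm]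
      apply Finset.sum_congr rfl
      intro m _
      simp [ite_mul]
    have h4 : ∑ m, c m * z (some (port m)) ^ 2 = α * y ^ 2 + α * ∑ m, (W m j) ^ 2 * X m ^ 2 := by
      have : ∀ m, c m * z (some (port m)) ^ 2 =
          (if m = j then α * y ^ 2 else 0) + α * ((W m j) ^ 2 * X m ^ 2) := by
        intro m
        by_cases hm : m = j
        · subst hm
          rw [if_pos rfl, h0, hcdef]
          dsimp only
          rw [if_pos rfl]
          ring
        · rw [hY, if_neg hm, if_neg hm, hcdef]
          dsimp only
          rw [if_neg hm]
          ring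
      simp only [this, Finset.sum_add_distrib, Finset.sum_ite_eq', Finset.mem_univ, if_true,
        Finset.mul_sum]
    rw [h2, h3, h4]
    -- rewriting the response forms
    have hBY : ∑ b, W j b * z (some (port b)) = B := by
      simp only [hY]
      rw [sum_upd, h0, zero_mul, add_zero]
    have hf : ∀ (U : I → I → ℝ) (x : I → ℝ), ∑ a, ∑ b, U a b * x a * x b =
        ∑ a, x a * ∑ b, U a b * x b := by
      intro U x
      apply Finset.sum_congr rfl
      intro a _
      rw [Finset.mul_sum]
      apply Finset.sum_congr rfl
      intro b _
      ring
    have hWX : ∀ a, ∑ b, W a b * z (some (port b)) = ∑ b, W a b * X b + W a j * (y - r) := by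
      intro a
      simp only [hY]
      rw [sum_upd]
    have hY0 : ∀ a, W a j * z (some (port a)) = W a j * X a := by
      intro a
      rw [hY]
      by_cases ha : a = j
      · subst ha
        rw [h0]; ring
      · rw [if_neg ha, add_zero]
    have hsB : ∑ a, W a j * X a = B := by
      rw [hB]
      apply Finset.sum_congr rfl
      intro a _
      rw [hs]
    have hform : ∑ a, ∑ b, unext W j α a b * z (some (port a)) * z (some (port b)) =
        ∑ a, ∑ b, W a b * X a * X b - 2 * r * B + 2 * α * y * B - α * B ^ 2 +
          α * ∑ m, (W m j) ^ 2 * X m ^ 2 := by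
      rw [hf (unext W j α) (fun a => z (some (port a))), hf W X]
      have step : ∀ a, z (some (port a)) * ∑ b, unext W j α a b * z (some (port b)) =
          X a * (∑ b, W a b * X b) + (if a = j then (y - r) * (∑ b, W a b * X b) else 0) +
          (y - r) * (W a j * X a) - α * B * (W a j * X a) +
          (if a = j then y * ((α - 1) * B) else 0) + (α - 1) * y * (W a j * X a) +
          α * ((W a j) ^ 2 * X a ^ 2) := by
        intro a
        rw [sum_unext, hWX, hBY]
        by_cases ha : a = j
        · subst ha
          rw [if_pos rfl, if_pos rfl, if_pos rfl, h0, hXj]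
          rw [← hy]
          ring
        · rw [if_neg ha, if_neg ha, if_neg ha, hY a, if_neg ha]
          rw [← hy]
          ring
      rw [Finset.sum_congr rfl (fun a _ => step a)]
      simp only [Finset.sum_add_distrib, Finset.sum_sub_distrib, Finset.sum_ite_eq',
        Finset.mem_univ, if_true, ← Finset.mul_sum, hsB]
      rw [← hB]
      ring
    have h1' : -∑ a, ∑ b, unext W j α a b * z (some (port a)) * z (some (port b)) ≤
      frm G pot (fun w => z (some w)) := h1
    rw [hform] at h1'
    have h5 : 0 ≤ α * (y - B - r / α) ^ 2 := by positivity
    have h6 : α * (y - B - r / α) ^ 2 = α * y ^ 2 + α * B ^ 2 + (1 / α) * r ^ 2 -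
        2 * α * y * B - 2 * y * r + 2 * B * r := by
      field_simp
      ring
    rw [h6] at h5
    linarith [h1', h5]
  · intro X
    set B : ℝ := ∑ b, W j b * X b with hB
    set r : ℝ := X j with hr
    set y : ℝ := B + r / α with hy
    obtain ⟨z, hz1, hz2, hz3⟩ := hn.ext (fun a => X a + if a = j then (y - r) else 0)
    have hαy : α * y = α * B + r := by
      rw [hy]
      field_simp
    refine ⟨fun v => match v with
      | some v => z v
      | none => r, ?_, ?_, ?_⟩
    · intro a
      by_cases ha : a = j
      · subst ha
        rw [hp'j]
      · rw [hp'n a ha]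
        dsimp only
        rw [hz1, if_neg ha, add_zero]
    · intro v hv
      cases v with
      | none => exact absurd ⟨j, hp'j⟩ hv
      | some v =>
        rw [row_cone_some]
        dsimp only
        by_cases hvj : v = port j
        · subst hvj
          rw [hz3, hep, sum_unext, sum_upd, h0, if_pos rfl]
          rw [hz1, if_pos rfl, if_pos ((hmem j).2 rfl)]
          rw [hcdef]
          dsimp only
          rw [if_pos rfl, ← hB, ← hr]
          have : α * (r + (y - r)) = α * y := by ring
          rw [this, hαy]
          ring
        · rcases hsome v hv with h | h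
          · exact absurd h hvj
          · rw [hz2 v h, he0 v h, if_neg]
            · ring
            · intro h'
              exact hvj h'
    · intro a
      by_cases ha : a = j
      · subst ha
        rw [hp'j, row_cone_none, sum_single]
        dsimp only
        rw [hz1, if_pos rfl, ← hB, ← hr, hy]
        field_simp
        ring
      · rw [hp'n a ha, row_cone_some]
        dsimp only
        rw [hz3, hep, sum_unext, sum_upd, sum_upd, h0, if_neg ha]
        rw [hz1, if_neg ha]
        have hns : port a ∉ S := by rw [hmem]; exact ha
        rw [if_neg hns, hcdef]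
        dsimp only
        rw [if_neg ha, ← hB, ← hr]
        have : (α - 1) * W a j * (r + if j = j then y - r else 0) = W a j * (α * y) - W a j * y := by
          rw [if_pos rfl]
          ring
        rw [this, hαy]
        ring

end TH994.Low
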