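import Pool.Agent.Helper78.SchMain
import Pool.Agent.TH994.Low.Cay

set_option autoImplicit false

namespace TH994.Low

open Finset

/-! ### Padding -/

theorem good_option {V : Type} [Fintype V] (G : SimpleGraph V) (pot : V → ℝ) (μ : ℕ)
    (h : IsGood G pot μ) : ∃ (G' : SimpleGraph (Option V)) (pot' : Option V → ℝ),
    IsGood G' pot' μ := by
  classical
  obtain ⟨v0, hv0⟩ := h.low
  set S : Set V := {v0} with hS
  set e : V → ℝ := fun v => if v ∈ S then 1 else 0 with he
  refine ⟨cone G S, cpot pot e 1, ?_, ?_, ?_, ?_, ?_⟩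
  · have hne : Nonempty (Option V) := ⟨none⟩
    refine SimpleGraph.Connected.mk ?_
    have hkey : ∀ x : Option V, (cone G S).Reachable x (some v0) := by
      intro x
      cases x with
      | none => exact SimpleGraph.Adj.reachable (show v0 ∈ S by simp [hS])
      | some v => exact reach_cone G S (h.conn.preconnected v v0)
    intro x y
    exact (hkey x).trans (hkey y).symm
  · intro x
    cases x with
    | none => rw [nb_cone_none, hS, Set.ncard_singleton]; omega
    | some v =>
      by_cases hv : v = v0
      · rw [hv]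
        refine (nb_cone_some_le _ _ _).trans ?_
        omega
      · rw [nb_cone_some _ _ _ (by simpa [hS] using hv)]
        exact h.deg v
  · refine ⟨none, ?_⟩
    rw [nb_cone_none, hS, Set.ncard_singleton]
    omega
  · obtain ⟨f, hf⟩ := h.pos
    refine ⟨f.comp (LinearMap.funLeft ℝ ℝ some), ?_⟩
    intro z hz
    have h1 := hf (fun v => z (some v)) hz
    rw [frm_cone]
    have h2 : ∑ v, (if v ∈ S then z (some v) else 0) = z (some v0) := sum_single _ _
    have h3 : ∑ v, e v * z (some v) ^ 2 = z (some v0) ^ 2 := by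
      rw [← sum_single v0 (fun v => z (some v) ^ 2)]
      apply Finset.sum_congr rfl
      intro v _
      rw [he]
      dsimp only
      split_ifs <;> simp
    rw [h2, h3]
    nlinarith [sq_nonneg (z (some v0) - z none)]
  · obtain ⟨J, _, b, hJ, hb, hrow⟩ := h.ker
    let b' : J → Option V → ℝ := fun j x => match x with
      | some v => b j v
      | none => b j v0
    refine ⟨J, inferInstance, b', hJ, ?_, ?_⟩
    · apply LinearIndependent.of_comp (LinearMap.funLeft ℝ ℝ (some : V → Option V))
      exact hb
    · intro j x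
      cases x with
      | none =>
        rw [row_cone_none, sum_single]
        simp [b']
      | some v =>
        rw [row_cone_some]
        have : row G pot (fun w => b' j (some w)) v = 0 := hrow j v
        rw [this, he]
        dsimp only
        by_cases hv : v ∈ S
        · rw [if_pos hv, if_pos hv]
          have : v = v0 := hv
          rw [this]
          simp [b']
        · rw [if_neg hv, if_neg hv]
          ring

theorem good_equiv {V U : Type} [Fintype V] [Fintype U] (e : U ≃ V) (G : SimpleGraph V)
    (pot : V → ℝ) (μ : ℕ) (h : IsGood G pot μ) : IsGood (G.comap e) (pot ∘ e) μ := by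
  classical
  have hrow : ∀ (z : U → ℝ) (u : U), row (G.comap e) (pot ∘ e) z u =
      row G pot (z ∘ e.symm) (e u) := by
    intro z u
    unfold row
    simp only [SimpleGraph.comap_adj, Function.comp_apply, Equiv.symm_apply_apply]
    congr 1
    rw [← Equiv.sum_comp e]
    apply Finset.sum_congr rfl
    intro w _
    simp
  have hfrm : ∀ (z : U → ℝ), frm (G.comap e) (pot ∘ e) z = frm G pot (z ∘ e.symm) := by
    intro z
    unfold frm
    rw [← Equiv.sum_comp e]
    apply Finset.sum_congr rfl
    intro u _
    rw [hrow]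
    simp
  have hnb : ∀ u, ((G.comap e).neighborSet u).ncard = (G.neighborSet (e u)).ncard := by
    intro u
    have : G.neighborSet (e u) = e '' ((G.comap e).neighborSet u) := by
      ext v
      constructor
      · intro hv
        exact ⟨e.symm v, by simpa using hv, by simp⟩
      · rintro ⟨w, hw, rfl⟩
        simpa using hw
    rw [this, Set.ncard_image_of_injective _ e.injective]
  refine ⟨?_, ?_, ?_, ?_, ?_⟩
  · exact (SimpleGraph.Iso.comap e G).connected_iff.2 h.conn
  · intro u
    rw [hnb]
    exact h.deg _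
  · obtain ⟨v, hv⟩ := h.low
    refine ⟨e.symm v, ?_⟩
    rw [hnb, Equiv.apply_symm_apply]
    exact hv
  · obtain ⟨f, hf⟩ := h.pos
    refine ⟨f.comp (LinearMap.funLeft ℝ ℝ e.symm), ?_⟩
    intro z hz
    rw [hfrm]
    exact hf _ hz
  · obtain ⟨J, _, b, hJ, hb, hr⟩ := h.ker
    refine ⟨J, inferInstance, fun j => b j ∘ e, hJ, ?_, ?_⟩
    · apply LinearIndependent.of_comp (LinearMap.funLeft ℝ ℝ e.symm)
      have : (LinearMap.funLeft ℝ ℝ e.symm) ∘ (fun j => b j ∘ e) = b := by
        funext j v
        simp [LinearMap.funLeft]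
      rw [this]
      exact hb
    · intro j u
      rw [hrow]
      have : (b j ∘ e) ∘ e.symm = b j := by
        funext v
        simp
      rw [this]
      exact hr _ _

theorem good_pad (μ : ℕ) (k : ℕ) : ∀ (V : Type) [Fintype V] (G : SimpleGraph V) (pot : V → ℝ),
    IsGood G pot μ → ∀ n, Fintype.card V + k = n →
    ∃ (G' : SimpleGraph (Fin n)) (pot' : Fin n → ℝ), IsGood G' pot' μ := by
  induction k with
  | zero =>
    intro V _ G pot h n hn
    let e : Fin n ≃ V := (Fintype.equivFinOfCardEq (by omega)).symm
    exact ⟨_, _, good_equiv e G pot μ h⟩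
  | succ k ih =>
    intro V _ G pot h n hn
    obtain ⟨G', pot', h'⟩ := good_option G pot μ h
    exact ih (Option V) G' pot' h' n (by rw [Fintype.card_option]; omega)

/-! ### The second eigenvalue -/

theorem mulVec_row {n : ℕ} (G : SimpleGraph (Fin n)) (pot : Fin n → ℝ) (z : Fin n → ℝ)
    (v : Fin n) : (Sch.schrodinger G (fun v => -pot v)).mulVec z v = -row G pot z v := by
  classical
  unfold Sch.schrodinger row
  rw [Matrix.add_mulVec, Pi.add_apply, Matrix.mulVec_diagonal]
  simp only [Matrix.mulVec, dotProduct, SimpleGraph.adjMatrix_apply, ite_mul, one_mul, zero_mul]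
  ring

theorem q_frm {n : ℕ} (G : SimpleGraph (Fin n)) (pot : Fin n → ℝ) (z : Fin n → ℝ) :
    Sch.q (Sch.schrodinger G (fun v => -pot v)) z z = -frm G pot z := by
  unfold Sch.q frm
  rw [← Finset.sum_neg_distrib]
  apply Finset.sum_congr rfl
  intro u _
  have : ∑ v, z u * Sch.schrodinger G (fun v => -pot v) u v * z v =
      z u * (Sch.schrodinger G (fun v => -pot v)).mulVec z u := by
    simp only [Matrix.mulVec, dotProduct, Finset.mul_sum]
    apply Finset.sum_congr rfl
    intro v _
    ring
  rw [this, mulVec_row]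
  ring

/-- For a symmetric matrix nonpositive on a hyperplane, the second eigenvalue is at most `0`. -/
theorem lam_le {V : Type} [Fintype V] [DecidableEq V] (M : Matrix V V ℝ) (hM : M.IsHermitian)
    (h1 : 1 < Fintype.card V) (f : (V → ℝ) →ₗ[ℝ] ℝ) (hf : ∀ z, f z = 0 → Sch.q M z z ≤ 0) :
    hM.eigenvalues₀ ⟨1, h1⟩ ≤ 0 := by
  by_contra hcon
  push Not at hcon
  set E : Fin (Fintype.card V) ≃ V := (Fintype.equivOfCardEq (Fintype.card_fin _)) with hE
  set i0 : V := E ⟨0, by omega⟩ with hi0
  set i1 : V := E ⟨1, h1⟩ with hi1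
  have hne : i0 ≠ i1 := by
    intro h
    have := E.injective h
    simp [Fin.ext_iff] at this
  have he1 : hM.eigenvalues i1 = hM.eigenvalues₀ ⟨1, h1⟩ := by
    unfold Matrix.IsHermitian.eigenvalues
    rw [hi1, hE, Equiv.symm_apply_apply]
  have he0 : hM.eigenvalues₀ ⟨1, h1⟩ ≤ hM.eigenvalues i0 := by
    unfold Matrix.IsHermitian.eigenvalues
    rw [hi0, hE, Equiv.symm_apply_apply]
    apply hM.eigenvalues₀_antitone
    rw [Fin.le_def]
    exact Nat.zero_le _
  set e0 : V → ℝ := fun w => hM.eigenvectorBasis i0 w with he0d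
  set e1 : V → ℝ := fun w => hM.eigenvectorBasis i1 w with he1d
  have hco : ∀ i j, ∑ w, hM.eigenvectorBasis i w * hM.eigenvectorBasis j w =
      if i = j then 1 else 0 := by
    intro i j
    have h := orthonormal_iff_ite.1 hM.eigenvectorBasis.orthonormal i j
    rw [PiLp.inner_apply] at h
    rw [← h]
    apply Finset.sum_congr rfl
    intro w _
    simp [mul_comm]
  have hq : ∀ c0 c1 : ℝ, Sch.q M (fun w => c0 * e0 w + c1 * e1 w) (fun w => c0 * e0 w + c1 * e1 w)
      = hM.eigenvalues i0 * c0 ^ 2 + hM.eigenvalues i1 * c1 ^ 2 := by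
    intro c0 c1
    rw [Sch.q_aux M hM]
    have hc : ∀ i, ∑ w, hM.eigenvectorBasis i w * (c0 * e0 w + c1 * e1 w) =
        c0 * (if i = i0 then 1 else 0) + c1 * (if i = i1 then 1 else 0) := by
      intro i
      rw [← hco, ← hco, Finset.mul_sum, Finset.mul_sum, ← Finset.sum_add_distrib]
      apply Finset.sum_congr rfl
      intro w _
      rw [he0d, he1d]
      ring
    simp only [hc]
    rw [← Finset.add_sum_erase _ _ (Finset.mem_univ i0),
      ← Finset.add_sum_erase _ _ (Finset.mem_erase.2 ⟨hne.symm, Finset.mem_univ i1⟩)]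
    rw [Finset.sum_eq_zero]
    · rw [if_pos rfl, if_neg hne, if_neg hne.symm, if_pos rfl]
      ring
    · intro i hi
      have h2 : i ≠ i1 := Finset.ne_of_mem_erase hi
      have h3 : i ≠ i0 := Finset.ne_of_mem_erase (Finset.mem_of_mem_erase hi)
      rw [if_neg h2, if_neg h3]
      ring
  have hlin : ∀ c0 c1 : ℝ, f (fun w => c0 * e0 w + c1 * e1 w) = c0 * f e0 + c1 * f e1 := by
    intro c0 c1
    have : (fun w => c0 * e0 w + c1 * e1 w) = c0 • e0 + c1 • e1 := by
      funext w
      simp
    rw [this, map_add, map_smul, map_smul]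
    simp
  by_cases h0 : f e0 = 0
  · have h2 := hf _ (by rw [hlin 1 0, h0]; ring : f (fun w => 1 * e0 w + 0 * e1 w) = 0)
    rw [hq] at h2
    linarith
  · have h2 := hf _ (by rw [hlin (f e1) (-f e0)]; ring :
      f (fun w => f e1 * e0 w + (-f e0) * e1 w) = 0)
    rw [hq] at h2
    have h3 : 0 < (-f e0) ^ 2 := by
      have : -f e0 ≠ 0 := neg_ne_zero.2 h0
      positivity
    have h4 : 0 ≤ hM.eigenvalues i0 := by linarith
    have h5 : 0 < hM.eigenvalues i1 := by rw [he1]; exact hcon
    have h6 := mul_nonneg h4 (sq_nonneg (f e1))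
    have h7 := mul_pos h5 h3
    linarith

/-- If the kernel of a symmetric matrix has two independent vectors, then the second eigenvalue
is at least `0`. -/
theorem le_lam {V : Type} [Fintype V] [DecidableEq V] (M : Matrix V V ℝ) (hM : M.IsHermitian)
    (h1 : 1 < Fintype.card V) (x y : V → ℝ) (hx : M.mulVec x = 0) (hy : M.mulVec y = 0)
    (hxy : ∀ c d : ℝ, (∀ v, c * x v + d * y v = 0) → c = 0 ∧ d = 0) :
    0 ≤ hM.eigenvalues₀ ⟨1, h1⟩ := by
  by_contra hcon
  push Not at hcon
  set E : Fin (Fintype.card V) ≃ V := (Fintype.equivOfCardEq (Fintype.card_fin _)) with hE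
  set i0 : V := E ⟨0, by omega⟩ with hi0
  have hev : ∀ i, i ≠ i0 → hM.eigenvalues i < 0 := by
    intro i hi
    refine lt_of_le_of_lt ?_ hcon
    unfold Matrix.IsHermitian.eigenvalues
    apply hM.eigenvalues₀_antitone
    rw [Fin.le_def]
    show 1 ≤ _
    by_contra hcon
    apply hi
    rw [hi0]
    have h2 : (Fintype.equivOfCardEq (Fintype.card_fin _)).symm i
        = (⟨0, by omega⟩ : Fin (Fintype.card V)) := by
      apply Fin.ext
      show _ = 0
      omega
    rw [← h2, hE, Equiv.apply_symm_apply]
  have hs : ∀ u v, M u v = M v u := by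
    intro u v
    have := hM.apply u v
    simpa using this.symm
  have hcoef : ∀ z : V → ℝ, M.mulVec z = 0 → ∀ i, i ≠ i0 →
      ∑ w, hM.eigenvectorBasis i w * z w = 0 := by
    intro z hz i hi
    have h0 : ∀ u, ∑ v, M u v * hM.eigenvectorBasis i v
        = hM.eigenvalues i * hM.eigenvectorBasis i u := by
      intro u
      have := congrFun (hM.mulVec_eigenvectorBasis i) u
      simpa [Matrix.mulVec, dotProduct] using this
    have h2 : hM.eigenvalues i * ∑ w, hM.eigenvectorBasis i w * z w = 0 := by
      calc hM.eigenvalues i * ∑ w, hM.eigenvectorBasis i w * z w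
          = ∑ u, (∑ v, M u v * hM.eigenvectorBasis i v) * z u := by
            rw [Finset.mul_sum]
            apply Finset.sum_congr rfl
            intro u _
            rw [h0]; ring
        _ = ∑ v, hM.eigenvectorBasis i v * (M.mulVec z v) := by
            simp only [Finset.sum_mul, Matrix.mulVec, dotProduct, Finset.mul_sum]
            rw [Finset.sum_comm]
            apply Finset.sum_congr rfl
            intro v _
            apply Finset.sum_congr rfl
            intro u _
            rw [hs u v]; ring
        _ = 0 := by rw [hz]; simp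
    exact (mul_eq_zero.1 h2).resolve_left (hev i hi).ne
  have hexp : ∀ z : V → ℝ, M.mulVec z = 0 → ∀ u,
      z u = (∑ w, hM.eigenvectorBasis i0 w * z w) * hM.eigenvectorBasis i0 u := by
    intro z hz u
    have h2 := Sch.expand_aux M hM z u
    rw [Finset.sum_eq_single i0] at h2
    · exact h2
    · intro i _ hi
      rw [hcoef z hz i hi, zero_mul]
    · intro h
      exact absurd (Finset.mem_univ _) h
  set cx := ∑ w, hM.eigenvectorBasis i0 w * x w with hcx
  set cy := ∑ w, hM.eigenvectorBasis i0 w * y w with hcy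
  have h3 := hxy cy (-cx) (by
    intro v
    have e1 := hexp x hx v
    have e2 := hexp y hy v
    rw [← hcx] at e1
    rw [← hcy] at e2
    rw [e1, e2]
    ring)
  have h4 := hxy 1 0 (by
    intro v
    have e1 := hexp x hx v
    rw [← hcx, neg_eq_zero.1 h3.2] at e1
    rw [e1]
    ring)
  exact one_ne_zero h4.1

/-- **The multiplicity of the second eigenvalue.** -/
theorem spec {n : ℕ} (hn : 2 ≤ n) (G : SimpleGraph (Fin n)) (pot : Fin n → ℝ) (μ : ℕ)
    (hμ : 2 ≤ μ) (h : IsGood G pot μ) :
    Sch.lam2 hn G (fun v => -pot v) = 0 ∧ μ ≤ Sch.multLam2 hn G (fun v => -pot v) := by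
  classical
  set D : Fin n → ℝ := fun v => -pot v with hD
  have hc : 1 < Fintype.card (Fin n) := by rw [Fintype.card_fin]; exact hn
  obtain ⟨J, _, b, hJ, hb, hrow⟩ := h.ker
  have hker : ∀ j, (Sch.schrodinger G D).mulVec (b j) = 0 := by
    intro j
    funext v
    rw [hD, mulVec_row, hrow]
    simp
  have hlam : Sch.lam2 hn G D = 0 := by
    apply le_antisymm
    · obtain ⟨f, hf⟩ := h.pos
      apply lam_le _ _ hc f
      intro z hz
      rw [hD, q_frm]
      linarith [hf z hz]
    · have h2 : 1 < Fintype.card J := by omega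
      obtain ⟨i, j, hij⟩ := Fintype.exists_pair_of_one_lt_card h2
      apply le_lam _ _ hc (b i) (b j) (hker i) (hker j)
      intro c d hcd
      have h3 := Fintype.linearIndependent_iff.1 hb
        (fun k => (if k = i then c else 0) + (if k = j then d else 0)) (by
          funext v
          simp only [add_smul, ite_smul, zero_smul, Finset.sum_add_distrib, Finset.sum_ite_eq',
            Finset.mem_univ, if_true]
          simpa using hcd v)
      have h4 := h3 i
      have h5 := h3 j
      rw [if_pos rfl, if_neg hij] at h4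
      rw [if_neg hij.symm, if_pos rfl] at h5
      exact ⟨by linarith, by linarith⟩
  refine ⟨hlam, ?_⟩
  unfold Sch.multLam2
  rw [hlam]
  have hmem : ∀ j, b j ∈ Module.End.eigenspace (Matrix.toLin' (Sch.schrodinger G D)) 0 := by
    intro j
    rw [Module.End.mem_eigenspace_iff, Matrix.toLin'_apply, hker, zero_smul]
  have hli : LinearIndependent ℝ (fun j => (⟨b j, hmem j⟩ :
      Module.End.eigenspace (Matrix.toLin' (Sch.schrodinger G D)) 0)) := by
    apply LinearIndependent.of_comp (Submodule.subtype _)
    exact hb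
  exact hJ.trans hli.fintype_card_le_finrank

end TH994.Low
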