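import Pool.Agent.TH994.Low.RS
import Pool.Agent.TH994.Low.Spec

set_option autoImplicit false

namespace TH994.Low

open Finset

theorem IsGood.mono {V : Type} [Fintype V] {G : SimpleGraph V} {pot : V → ℝ} {μ ν : ℕ}
    (h : IsGood G pot μ) (hν : ν ≤ μ) : IsGood G pot ν := by
  obtain ⟨J, i, b, hJ, hb⟩ := h.ker
  exact ⟨h.conn, h.deg, h.low, h.pos, J, i, b, hν.trans hJ, hb⟩

theorem good_field (F : Type) [Field F] [Fintype F] [DecidableEq F] [CharP F 2] (k : ℕ)
    (hk : 2 ≤ k) (hkq : k ≤ Fintype.card F) :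
    ∃ (V : Type) (_ : Fintype V) (G : SimpleGraph V) (pot : V → ℝ),
      Fintype.card V ≤ 2 * Fintype.card F ^ (k + 4) ∧
      IsGood G pot ((Fintype.card F - 1) * (Fintype.card F).choose (k - 1)) := by
  classical
  obtain ⟨τ, hτ⟩ := exists_tau (F := F)
  obtain ⟨V, _, G, port, pot, hc, hn⟩ := net_clique (F × {y : F // y ≠ 0})
  set q : ℕ := Fintype.card F with hq
  have hq2 : 2 ≤ q := by omega
  have hcard : Fintype.card (F × {y : F // y ≠ 0}) = q * (q - 1) := by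
    rw [Fintype.card_prod, Fintype.card_subtype_compl]
    simp [hq]
  have hne : Nonempty (F × {y : F // y ≠ 0}) := ⟨(0, ⟨1, one_ne_zero⟩)⟩
  set δ : ℝ := (Fintype.card (F × {y : F // y ≠ 0}) : ℝ) with hδ
  have hδ2 : 2 ≤ δ := by
    rw [hδ, hcard]
    have : 2 ≤ q * (q - 1) := by
      have : 1 ≤ q - 1 := by omega
      nlinarith
    exact_mod_cast this
  have hkr : (2 : ℝ) ≤ k := by exact_mod_cast hk
  have hq0 : (0 : ℝ) ≤ q := Nat.cast_nonneg _
  set s : ℝ := (q : ℝ) * (k - 2) with hs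
  have hs0 : 0 ≤ s := mul_nonneg hq0 (by linarith)
  set a : ℝ := (δ + Real.sqrt (δ ^ 2 + 4 * (1 + s))) / 2 with ha
  have hsq : Real.sqrt (δ ^ 2 + 4 * (1 + s)) ^ 2 = δ ^ 2 + 4 * (1 + s) :=
    Real.sq_sqrt (by positivity)
  have hge : δ ≤ Real.sqrt (δ ^ 2 + 4 * (1 + s)) := by
    apply Real.le_sqrt_of_sq_le
    linarith
  have ha1 : 1 < a := by
    rw [ha]
    linarith
  have haeq : δ * a + s = a ^ 2 - 1 := by
    have : Real.sqrt (δ ^ 2 + 4 * (1 + s)) = 2 * a - δ := by rw [ha]; ring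
    rw [this] at hsq
    nlinarith
  refine ⟨(Fin k → F) × V, inferInstance,
    asm (two_pi k) (gen k) (gen_ne k (by omega)) G port, apot port pot a, ?_, ?_⟩
  · rw [Fintype.card_prod, Fintype.card_fun, Fintype.card_fin, ← hq]
    rw [hcard] at hc
    have h1 : (q * (q - 1)) ^ 2 ≤ q ^ 4 := by
      have : q * (q - 1) ≤ q ^ 2 := by
        rw [sq]
        exact Nat.mul_le_mul_left q (Nat.sub_le q 1)
      calc (q * (q - 1)) ^ 2 ≤ (q ^ 2) ^ 2 := Nat.pow_le_pow_left this 2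
        _ = q ^ 4 := by ring
    calc q ^ k * Fintype.card V ≤ q ^ k * (2 * q ^ 4) := by
          apply Nat.mul_le_mul_left
          exact hc.trans (Nat.mul_le_mul_left 2 h1)
      _ = 2 * q ^ (k + 4) := by ring
  · have hgood := good_asm (chars hτ k) (two_pi k) (gen k) (gen_ne k (by omega)) G port pot hn
      (closure_gen k hkq) ha1 ?_ (best F k) ?_
    · exact hgood.mono (card_best k (by omega))
    · intro l
      by_cases hl : l = 0
      · left
        intro u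
        unfold chi
        rw [hl]
        simp [hτ.zero]
      · right
        rw [sum_gen hτ, ← hδ, ← hq, ← haeq]
        have h1 : ((zer l).card : ℝ) ≤ (k : ℝ) - 1 := by
          have h2 := zer_card (by omega) l hl
          have h3 : (zer l).card + 1 ≤ k := h2
          have h4 : ((zer l).card : ℝ) + 1 ≤ k := by exact_mod_cast h3
          linarith
        have h2 : (q : ℝ) * ((zer l).card : ℝ) ≤ q * (k - 1) := mul_le_mul_of_nonneg_left h1 hq0
        rw [hs]
        linarith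
    · intro l hl
      rw [sum_gen hτ, ← hδ, ← hq, ← haeq]
      have h1 : (zer l).card = k - 1 := (Finset.mem_filter.1 hl).2
      rw [h1, Nat.cast_sub (by omega), hs]
      push_cast
      ring

theorem good_fin (h k n : ℕ) (hh : 1 ≤ h) (hk : 2 ≤ k) (hkq : k ≤ 2 ^ h)
    (hn : 2 * (2 ^ h) ^ (k + 4) ≤ n) :
    ∃ (G : SimpleGraph (Fin n)) (pot : Fin n → ℝ),
      IsGood G pot ((2 ^ h - 1) * (2 ^ h).choose (k - 1)) := by
  classical
  let _ : Fintype (GaloisField 2 h) := Fintype.ofFinite _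
  have hcard : Fintype.card (GaloisField 2 h) = 2 ^ h := by
    rw [← Nat.card_eq_fintype_card]
    exact GaloisField.card 2 h (by omega)
  obtain ⟨V, _, G, pot, hV, hg⟩ := good_field (GaloisField 2 h) k hk (by rw [hcard]; exact hkq)
  rw [hcard] at hV hg
  obtain ⟨m, hm⟩ := Nat.exists_eq_add_of_le (hV.trans hn)
  exact good_pad _ m V G pot hg n hm.symm

theorem two_le_mu (h k : ℕ) (hk : 2 ≤ k) (hkq : k ≤ 2 ^ h) :
    2 ≤ (2 ^ h - 1) * (2 ^ h).choose (k - 1) := by
  set q := 2 ^ h with hq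
  have h1 : 1 ≤ q - 1 := by omega
  have h2 : 2 ≤ q.choose (k - 1) := by
    obtain ⟨r, hr⟩ : ∃ r, k - 1 = r + 1 := ⟨k - 2, by omega⟩
    obtain ⟨t, ht⟩ : ∃ t, q = t + 1 := ⟨q - 1, by omega⟩
    rw [hr, ht, Nat.choose_succ_succ']
    have e1 : 0 < t.choose r := Nat.choose_pos (by omega)
    have e2 : 0 < t.choose (r + 1) := Nat.choose_pos (by omega)
    omega
  nlinarith

/-- **The lower bound.** -/
theorem lower (h k n : ℕ) (hh : 1 ≤ h) (hk : 2 ≤ k) (hkq : k ≤ 2 ^ h)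
    (hn : 2 * (2 ^ h) ^ (k + 4) ≤ n) :
    ∃ (h2 : 2 ≤ n) (G : SimpleGraph (Fin n)) (D : Fin n → ℝ), G.Connected ∧
      (∀ v, (G.neighborSet v).ncard ≤ 3) ∧
      (2 ^ h - 1) * (2 ^ h).choose (k - 1) ≤ Sch.multLam2 h2 G D := by
  have h2 : 2 ≤ n := by
    have : 1 ≤ (2 ^ h) ^ (k + 4) := Nat.one_le_pow _ _ (by positivity)
    omega
  obtain ⟨G, pot, hg⟩ := good_fin h k n hh hk hkq hn
  exact ⟨h2, G, _, hg.conn, hg.deg, (spec h2 G pot _ (two_le_mu h k hk hkq) hg).2⟩

end TH994.Low
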