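import Pool.Agent.TH994.Low.Cone

set_option autoImplicit false

namespace TH994.Low

open Finset

variable {I : Type} [Fintype I]

/-- The graph `G` with potential `pot` and ports `port` has the response form `-W`. -/
structure IsNet (W : I → I → ℝ) (d : I → ℕ) (V : Type) [Fintype V] (G : SimpleGraph V)
    (port : I → V) (pot : V → ℝ) : Prop where
  inj : Function.Injective port
  degI : ∀ v, v ∉ Set.range port → (G.neighborSet v).ncard ≤ 3
  degP : ∀ i, (G.neighborSet (port i)).ncard ≤ d i
  reach : ∀ v, ∃ i, G.Reachable v (port i)
  conn : ∀ i j, W i j ≠ 0 → G.Reachable (port i) (port j)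
  form : ∀ z : V → ℝ, -∑ i, ∑ j, W i j * z (port i) * z (port j) ≤ frm G pot z
  ext : ∀ x : I → ℝ, ∃ z : V → ℝ, (∀ i, z (port i) = x i) ∧
    (∀ v, v ∉ Set.range port → row G pot z v = 0) ∧
    ∀ i, row G pot z (port i) = -∑ j, W i j * x j

/-- `W` is the response of a network with at most `N` vertices, port degrees at most `d`. -/
def Net (W : I → I → ℝ) (d : I → ℕ) (N : ℕ) : Prop :=
  ∃ (V : Type) (_ : Fintype V) (G : SimpleGraph V) (port : I → V) (pot : V → ℝ),
    Fintype.card V ≤ N ∧ IsNet W d V G port pot

theorem Net.mono {W : I → I → ℝ} {d d' : I → ℕ} {N N' : ℕ} (h : Net W d N) (hd : ∀ i, d i ≤ d' i)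
    (hN : N ≤ N') : Net W d' N' := by
  obtain ⟨V, _, G, port, pot, hc, hn⟩ := h
  exact ⟨V, _, G, port, pot, hc.trans hN, hn.inj, hn.degI, fun i => (hn.degP i).trans (hd i),
    hn.reach, hn.conn, hn.form, hn.ext⟩

theorem net_zero : Net (fun _ _ : I => (0 : ℝ)) (fun _ => 0) (Fintype.card I) := by
  classical
  have hrow : ∀ z : I → ℝ, ∀ v : I, row (⊥ : SimpleGraph I) (fun _ => 0) z v = 0 := by
    intro z v
    unfold row
    simp
  refine ⟨I, inferInstance, ⊥, id, fun _ => 0, le_refl _, ?_⟩
  refine ⟨Function.injective_id, ?_, ?_, ?_, ?_, ?_, ?_⟩
  · intro v hv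
    exact absurd (Set.mem_range_self v) hv
  · intro i
    have : (⊥ : SimpleGraph I).neighborSet (id i) = ∅ := by
      ext w; simp
    rw [this]; simp
  · intro v
    exact ⟨v, SimpleGraph.Reachable.refl _⟩
  · intro i j h
    exact absurd rfl h
  · intro z
    unfold frm
    simp [hrow]
  · intro x
    refine ⟨x, fun i => rfl, fun v _ => hrow x v, fun i => ?_⟩
    simp [hrow]

/-- Adding a conductance between two ports, through a new vertex. -/
theorem Net.add [DecidableEq I] {W : I → I → ℝ} {d : I → ℕ} {N : ℕ} (h : Net W d N) {i j : I}
    (hij : i ≠ j) {β : ℝ} (hβ : 0 < β) :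
    Net (fun a b => W a b + ((if a = i then (if b = j then β else 0) else 0) +
      (if a = j then (if b = i then β else 0) else 0)))
      (fun a => d a + if a = i ∨ a = j then 1 else 0) (N + 1) := by
  classical
  obtain ⟨V, _, G, port, pot, hc, hn⟩ := h
  set S : Set V := {port i, port j} with hS
  have hpij : port i ≠ port j := fun h => hij (hn.inj h)
  have hmemi : port i ∈ S := by simp [hS]
  have hmemj : port j ∈ S := by simp [hS]
  have hmem : ∀ a, port a ∈ S ↔ a = i ∨ a = j := by
    intro a
    simp [hS, hn.inj.eq_iff]
  set e : V → ℝ := fun v => if v ∈ S then β else 0 with he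
  refine ⟨Option V, inferInstance, cone G S, fun a => some (port a), cpot pot e (1 / β), ?_, ?_⟩
  · rw [Fintype.card_option]; omega
  have hnr : ∀ v : V, some v ∉ Set.range (fun a => some (port a)) → v ∉ Set.range port := by
    rintro v hv ⟨a, rfl⟩
    exact hv ⟨a, rfl⟩
  refine ⟨?_, ?_, ?_, ?_, ?_, ?_, ?_⟩
  · intro a b hab
    exact hn.inj (Option.some_injective _ hab)
  · intro v hv
    cases v with
    | none =>
      rw [nb_cone_none, Set.ncard_pair hpij]
      omega
    | some v =>
      have hv' := hnr v hv
      rw [nb_cone_some]
      · exact hn.degI v hv'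
      · rintro (h | h)
        · exact hv' ⟨i, h.symm⟩
        · exact hv' ⟨j, h.symm⟩
  · intro a
    by_cases ha : a = i ∨ a = j
    · rw [if_pos ha]
      exact (nb_cone_some_le _ _ _).trans (Nat.add_le_add_right (hn.degP a) 1)
    · rw [if_neg ha, nb_cone_some _ _ _ (by rw [hmem]; exact ha)]
      exact hn.degP a
  · intro v
    cases v with
    | none =>
      refine ⟨i, SimpleGraph.Adj.reachable ?_⟩
      exact hmemi
    | some v =>
      obtain ⟨a, ha⟩ := hn.reach v
      exact ⟨a, reach_cone G S ha⟩
  · intro a b hab
    by_cases hW : W a b = 0
    · have hii : (cone G S).Reachable (some (port i)) none := SimpleGraph.Adj.reachable hmemi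
      have hjj : (cone G S).Reachable (some (port j)) none := SimpleGraph.Adj.reachable hmemj
      by_cases h1 : a = i ∧ b = j
      · rw [h1.1, h1.2]
        exact hii.trans hjj.symm
      · by_cases h2 : a = j ∧ b = i
        · rw [h2.1, h2.2]
          exact hjj.trans hii.symm
        · exfalso
          apply hab
          simp only [hW, zero_add]
          have e1 : (if a = i then (if b = j then β else 0) else 0) = 0 := by
            split_ifs with h3 h4
            · exact absurd ⟨h3, h4⟩ h1
            · rfl
            · rfl
          have e2 : (if a = j then (if b = i then β else 0) else 0) = 0 := by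
            split_ifs with h3 h4
            · exact absurd ⟨h3, h4⟩ h2
            · rfl
            · rfl
          rw [e1, e2, add_zero]
    · exact reach_cone G S (hn.conn a b hW)
  · intro z
    rw [frm_cone]
    have h1 := hn.form (fun w => z (some w))
    have h2 : ∑ v, (if v ∈ S then z (some v) else 0) = z (some (port i)) + z (some (port j)) :=
      sum_pair _ _ hpij _
    have h3 : ∑ v, e v * z (some v) ^ 2 =
        β * z (some (port i)) ^ 2 + β * z (some (port j)) ^ 2 := by
      rw [← sum_pair _ _ hpij (fun v => β * z (some v) ^ 2)]
      apply Finset.sum_congr rfl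
      intro v _
      rw [he]
      dsimp only
      split_ifs <;> simp
    rw [h2, h3]
    have h4 : ∑ a, ∑ b, (W a b + ((if a = i then (if b = j then β else 0) else 0) +
        (if a = j then (if b = i then β else 0) else 0))) * z (some (port a)) * z (some (port b)) =
        ∑ a, ∑ b, W a b * z (some (port a)) * z (some (port b)) +
          2 * β * z (some (port i)) * z (some (port j)) := by
      simp only [add_mul, ite_mul, zero_mul, Finset.sum_add_distrib]
      have e1 : ∑ a, ∑ b, (if a = i then (if b = j then
          β * z (some (port a)) * z (some (port b)) else 0) else 0) =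
          β * z (some (port i)) * z (some (port j)) := by
        rw [Finset.sum_eq_single i]
        · simp
        · intro b _ hb
          simp [hb]
        · simp
      have e2 : ∑ a, ∑ b, (if a = j then (if b = i then
          β * z (some (port a)) * z (some (port b)) else 0) else 0) =
          β * z (some (port j)) * z (some (port i)) := by
        rw [Finset.sum_eq_single j]
        · simp
        · intro b _ hb
          simp [hb]
        · simp
      rw [e1, e2]
      ring
    rw [h4]
    have h5 : 0 ≤ (1 / β) * (z none - β * (z (some (port i)) + z (some (port j)))) ^ 2 := by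
      positivity
    have h6 : (1 / β) * (z none - β * (z (some (port i)) + z (some (port j)))) ^ 2 =
        (1 / β) * z none ^ 2 - 2 * z none * (z (some (port i)) + z (some (port j))) +
          β * (z (some (port i)) + z (some (port j))) ^ 2 := by
      field_simp
      ring
    rw [h6] at h5
    nlinarith [h1, h5]
  · intro x
    obtain ⟨z, hz1, hz2, hz3⟩ := hn.ext x
    refine ⟨fun v => match v with
      | some v => z v
      | none => β * (x i + x j), fun a => hz1 a, ?_, ?_⟩
    · intro v hv
      cases v with
      | none =>
        rw [row_cone_none]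
        have h2 : ∑ v, (if v ∈ S then z v else 0) = z (port i) + z (port j) :=
          sum_pair _ _ hpij _
        dsimp only
        rw [h2, hz1, hz1]
        field_simp
        ring
      | some v =>
        have hv' := hnr v hv
        rw [row_cone_some]
        have hvS : v ∉ S := by
          rintro (h | h)
          · exact hv' ⟨i, h.symm⟩
          · exact hv' ⟨j, h.symm⟩
        rw [he]
        dsimp only
        rw [if_neg hvS, if_neg hvS, hz2 v hv']
        ring
    · intro a
      rw [row_cone_some]
      dsimp only
      rw [he]
      dsimp only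
      rw [hz3, hz1]
      have h4 : ∑ b, (W a b + ((if a = i then (if b = j then β else 0) else 0) +
        (if a = j then (if b = i then β else 0) else 0))) * x b =
        ∑ b, W a b * x b + ((if a = i then β * x j else 0) + (if a = j then β * x i else 0)) := by
        simp only [add_mul, ite_mul, zero_mul, Finset.sum_add_distrib]
        congr 1
        congr 1
        · split_ifs <;> simp
        · split_ifs <;> simp
      rw [h4]
      by_cases h1 : a = i
      · subst h1
        rw [if_pos hmemi, if_pos hmemi, if_pos rfl, if_neg hij]
        ring
      · by_cases h2 : a = j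
        · subst h2
          rw [if_pos hmemj, if_pos hmemj, if_neg h1, if_pos rfl]
          ring
        · have : port a ∉ S := by
            rw [hmem]
            rintro (h | h)
            · exact h1 h
            · exact h2 h
          rw [if_neg this, if_neg this, if_neg h1, if_neg h2]
          ring

end TH994.Low
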