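import Pool.Agent.TH994.Low.Cay

set_option autoImplicit false

namespace TH994.Low

open Finset Polynomial

section

variable {F : Type} [Field F] [Fintype F] [DecidableEq F]

/-- A nontrivial real additive character of a field of characteristic two. -/
structure Tau (τ : F → ℝ) : Prop where
  add : ∀ a b, τ (a + b) = τ a * τ b
  sq : ∀ a, τ a * τ a = 1
  one : τ 1 = -1

omit [Fintype F] [DecidableEq F] in
theorem exists_tau [CharP F 2] : ∃ τ : F → ℝ, Tau τ := by
  classical
  let _ : Algebra (ZMod 2) F := ZMod.algebra F 2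
  have h1 : ∃ φ : Module.Dual (ZMod 2) F, φ 1 ≠ 0 := by
    by_contra hcon
    push Not at hcon
    exact one_ne_zero ((Module.forall_dual_apply_eq_zero_iff (ZMod 2) (1 : F)).1 hcon)
  obtain ⟨φ, hφ⟩ := h1
  have hz : ∀ x : ZMod 2, x = 0 ∨ x = 1 := by decide
  refine ⟨fun a => if φ a = 0 then 1 else -1, ?_, ?_, ?_⟩
  · intro a b
    simp only [map_add]
    have h11 : (1 : ZMod 2) + 1 = 0 := by decide
    rcases hz (φ a) with ha | ha <;> rcases hz (φ b) with hb | hb <;> simp [ha, hb, h11]
  · intro a
    split_ifs <;> norm_num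
  · simp [hφ]

variable {τ : F → ℝ}

omit [Fintype F] [DecidableEq F] in
theorem Tau.zero (h : Tau τ) : τ 0 = 1 := by
  have h1 := h.add 0 0
  rw [add_zero, h.sq] at h1
  exact h1

omit [DecidableEq F] in
theorem Tau.sum (h : Tau τ) : ∑ a, τ a = 0 := by
  have h1 : ∑ a, τ a = ∑ a, τ (a + 1) := (Equiv.sum_comp (Equiv.addRight (1 : F)) τ).symm
  have h2 : ∑ a, τ (a + 1) = -∑ a, τ a := by
    simp only [h.add, h.one]
    rw [← Finset.sum_mul]
    ring
  linarith

theorem Tau.sum_mul (h : Tau τ) (c : F) :
    ∑ y, τ (y * c) = if c = 0 then (Fintype.card F : ℝ) else 0 := by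
  split_ifs with hc
  · subst hc
    simp [h.zero]
  · rw [← h.sum]
    exact Equiv.sum_comp (Equiv.mulRight₀ c hc) τ

theorem Tau.sum_units (h : Tau τ) (c : F) :
    ∑ y : {y : F // y ≠ 0}, τ (y.1 * c) = (if c = 0 then (Fintype.card F : ℝ) else 0) - 1 := by
  rw [← h.sum_mul c]
  have h1 := Finset.sum_erase_eq_sub (f := fun y => τ (y * c)) (Finset.mem_univ (0 : F))
  simp only [zero_mul, h.zero] at h1
  rw [← h1]
  symm
  apply Finset.sum_subtype
  intro x
  simp

/-- The characters of `F^k`. -/
noncomputable def chi (τ : F → ℝ) (k : ℕ) (l u : Fin k → F) : ℝ := τ (∑ j, l j * u j)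

omit [Fintype F] [DecidableEq F] in
theorem two_pi [CharP F 2] (k : ℕ) (u : Fin k → F) : u + u = 0 := by
  funext j
  exact CharTwo.add_self_eq_zero (u j)

omit [DecidableEq F] in
theorem chi_dual (h : Tau τ) (k : ℕ) (u : Fin k → F) (hu : u ≠ 0) :
    ∑ l, chi τ k l u = 0 := by
  obtain ⟨j, hj⟩ := Function.ne_iff.1 hu
  have hj' : u j ≠ 0 := hj
  set e : Fin k → F := Pi.single j (u j)⁻¹ with he
  have h1 : ∑ l, chi τ k l u = ∑ l, chi τ k (l + e) u :=
    (Equiv.sum_comp (Equiv.addRight e) (fun l => chi τ k l u)).symm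
  have h2 : ∀ l, chi τ k (l + e) u = -chi τ k l u := by
    intro l
    unfold chi
    have : ∑ i, (l + e) i * u i = ∑ i, l i * u i + 1 := by
      simp only [Pi.add_apply, add_mul, Finset.sum_add_distrib]
      congr 1
      rw [Finset.sum_eq_single j]
      · rw [he, Pi.single_eq_same, inv_mul_cancel₀ hj']
      · intro b _ hb
        rw [he, Pi.single_eq_of_ne hb, zero_mul]
      · intro h
        exact absurd (Finset.mem_univ j) h
    rw [this, h.add, h.one]
    ring
  simp only [h2, Finset.sum_neg_distrib] at h1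
  linarith

omit [DecidableEq F] in
theorem chars [CharP F 2] (h : Tau τ) (k : ℕ) : Chars (Fin k → F) (Fin k → F) (chi τ k) := by
  refine ⟨?_, ?_, chi_dual h k, rfl, ?_⟩
  · intro l u v
    unfold chi
    rw [← h.add]
    congr 1
    simp only [Pi.add_apply, mul_add, Finset.sum_add_distrib]
  · intro l u
    exact h.sq _
  · intro l m hlm
    have hne : l + m ≠ 0 := by
      intro h0
      apply hlm
      have h1 : l = -m := eq_neg_of_add_eq_zero_left h0
      rw [h1]
      exact (eq_neg_of_add_eq_zero_left (two_pi k m)).symm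
    have h1 := chi_dual h k (l + m) hne
    rw [← h1]
    apply Finset.sum_congr rfl
    intro u _
    unfold chi
    rw [← h.add]
    congr 1
    rw [← Finset.sum_add_distrib]
    apply Finset.sum_congr rfl
    intro j _
    simp only [Pi.add_apply]
    ring

/-- The generators. -/
def gen (k : ℕ) (i : F × {y : F // y ≠ 0}) : Fin k → F := fun j => i.2.1 * i.1 ^ (j : ℕ)

omit [Fintype F] [DecidableEq F] in
theorem gen_ne (k : ℕ) (hk : 1 ≤ k) (i : F × {y : F // y ≠ 0}) : gen k i ≠ 0 := by
  intro h
  have := congrFun h ⟨0, by omega⟩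
  simp only [gen, pow_zero, mul_one, Pi.zero_apply] at this
  exact i.2.2 this

/-- The value of the polynomial with coefficients `l`. -/
def pv {k : ℕ} (l : Fin k → F) (x : F) : F := ∑ j, l j * x ^ (j : ℕ)

/-- The zeros of the polynomial with coefficients `l`. -/
def zer {k : ℕ} (l : Fin k → F) : Finset F := univ.filter (fun x => pv l x = 0)

theorem sum_gen (h : Tau τ) (k : ℕ) (l : Fin k → F) :
    ∑ i, chi τ k l (gen k i) = Fintype.card F * ((zer l).card : ℝ) - Fintype.card F := by
  rw [Fintype.sum_prod_type]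
  have h1 : ∀ x : F, ∑ y : {y : F // y ≠ 0}, chi τ k l (gen k (x, y)) =
      (if pv l x = 0 then (Fintype.card F : ℝ) else 0) - 1 := by
    intro x
    rw [← h.sum_units]
    apply Finset.sum_congr rfl
    intro y _
    unfold chi gen pv
    congr 1
    rw [Finset.mul_sum]
    apply Finset.sum_congr rfl
    intro j _
    ring
  simp only [h1, Finset.sum_sub_distrib, Finset.sum_const, Finset.card_univ, nsmul_eq_mul, mul_one]
  rw [← Finset.sum_filter, Finset.sum_const, nsmul_eq_mul]
  unfold zer
  ring

/-- The polynomial. -/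
noncomputable def pol {k : ℕ} (l : Fin k → F) : F[X] := ∑ j : Fin k, monomial (j : ℕ) (l j)

omit [Fintype F] [DecidableEq F] in
theorem pol_eval {k : ℕ} (l : Fin k → F) (x : F) : (pol l).eval x = pv l x := by
  unfold pol pv
  rw [eval_finsetSum]
  apply Finset.sum_congr rfl
  intro j _
  rw [eval_monomial]

omit [Fintype F] [DecidableEq F] in
theorem pol_coeff {k : ℕ} (l : Fin k → F) (j : Fin k) : (pol l).coeff j = l j := by
  unfold pol
  rw [finsetSum_coeff, Finset.sum_eq_single j]
  · rw [coeff_monomial, if_pos rfl]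
  · intro b _ hb
    rw [coeff_monomial, if_neg]
    intro h
    exact hb (Fin.ext h)
  · intro h
    exact absurd (Finset.mem_univ j) h

omit [Fintype F] [DecidableEq F] in
theorem pol_deg {k : ℕ} (hk : 1 ≤ k) (l : Fin k → F) : (pol l).natDegree < k := by
  have : (pol l).natDegree ≤ k - 1 := by
    apply natDegree_sum_le_of_forall_le
    intro j _
    refine (natDegree_monomial_le _).trans ?_
    omega
  omega

theorem zer_card {k : ℕ} (hk : 1 ≤ k) (l : Fin k → F) (hl : l ≠ 0) : (zer l).card < k := by
  by_contra hcon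
  push Not at hcon
  apply hl
  have h1 : pol l = 0 := by
    apply eq_zero_of_natDegree_lt_card_of_eval_eq_zero' (pol l) (zer l)
    · intro x hx
      rw [pol_eval]
      exact (Finset.mem_filter.1 hx).2
    · exact lt_of_lt_of_le (pol_deg hk l) hcon
  funext j
  rw [← pol_coeff l j, h1]
  simp

/-- The polynomial with prescribed zeros and leading coefficient. -/
noncomputable def rp (c : F) (S : Finset F) : F[X] := C c * ∏ s ∈ S, (X - C s)

omit [Fintype F] [DecidableEq F] in
theorem rp_deg (c : F) (S : Finset F) : (rp c S).natDegree ≤ S.card := by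
  unfold rp
  refine (natDegree_C_mul_le _ _).trans ?_
  rw [natDegree_finsetProd_X_sub_C_eq_card]

omit [Fintype F] [DecidableEq F] in
theorem rp_lead (c : F) (S : Finset F) : (rp c S).coeff S.card = c := by
  unfold rp
  rw [coeff_C_mul]
  have hm : (∏ s ∈ S, (X - C s)).Monic := monic_prod_X_sub_C _ _
  have hd : (∏ s ∈ S, (X - C s)).natDegree = S.card := natDegree_finsetProd_X_sub_C_eq_card S (fun s => s)
  have := hm.coeff_natDegree
  rw [hd] at this
  rw [this, mul_one]

/-- The coefficient vector. -/
noncomputable def cv (k : ℕ) (c : F) (S : Finset F) : Fin k → F := fun j => (rp c S).coeff j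

omit [Fintype F] [DecidableEq F] in
theorem pv_cv (k : ℕ) (c : F) (S : Finset F) (hS : S.card < k) (x : F) :
    pv (cv k c S) x = c * ∏ s ∈ S, (x - s) := by
  have h1 : (rp c S).eval x = c * ∏ s ∈ S, (x - s) := by
    unfold rp
    rw [eval_mul, eval_C, eval_prod]
    simp
  rw [← h1, eval_eq_sum_range' (lt_of_le_of_lt (rp_deg c S) hS)]
  unfold pv cv
  exact Fin.sum_univ_eq_sum_range (fun j => (rp c S).coeff j * x ^ j) k

theorem zer_cv (k : ℕ) (c : F) (hc : c ≠ 0) (S : Finset F) (hS : S.card < k) :
    zer (cv k c S) = S := by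
  ext x
  unfold zer
  rw [Finset.mem_filter, pv_cv k c S hS]
  simp only [Finset.mem_univ, true_and, mul_eq_zero, hc, false_or, Finset.prod_eq_zero_iff]
  constructor
  · rintro ⟨s, hs, h⟩
    rw [sub_eq_zero] at h
    rw [h]
    exact hs
  · intro hx
    exact ⟨x, hx, sub_self x⟩

/-- The polynomials with the largest possible number of zeros. -/
def best (F : Type) [Field F] [Fintype F] [DecidableEq F] (k : ℕ) : Finset (Fin k → F) :=
  univ.filter (fun l => (zer l).card = k - 1)

theorem card_best (k : ℕ) (hk : 1 ≤ k) :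
    (Fintype.card F - 1) * (Fintype.card F).choose (k - 1) ≤ (best F k).card := by
  have h1 : ((univ.erase (0 : F)) ×ˢ ((univ : Finset F).powersetCard (k - 1))).card =
      (Fintype.card F - 1) * (Fintype.card F).choose (k - 1) := by
    rw [Finset.card_product, Finset.card_erase_of_mem (Finset.mem_univ _),
      Finset.card_powersetCard, Finset.card_univ]
  rw [← h1]
  apply Finset.card_le_card_of_injOn (fun p => cv k p.1 p.2)
  · rintro ⟨c, S⟩ hp
    rw [Finset.mem_coe, Finset.mem_product, Finset.mem_erase, Finset.mem_powersetCard] at hp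
    obtain ⟨⟨hc, _⟩, _, hS⟩ := hp
    simp only at hc hS
    rw [Finset.mem_coe]
    unfold best
    rw [Finset.mem_filter]
    refine ⟨Finset.mem_univ _, ?_⟩
    simp only
    rw [zer_cv k c hc S (by omega), hS]
  · rintro ⟨c, S⟩ hp ⟨c', S'⟩ hp' heq
    rw [Finset.mem_coe, Finset.mem_product, Finset.mem_erase, Finset.mem_powersetCard] at hp hp'
    obtain ⟨⟨hc, _⟩, _, hS⟩ := hp
    obtain ⟨⟨hc', _⟩, _, hS'⟩ := hp'
    simp only at hc hS hc' hS' heq
    have e1 : S = S' := by
      rw [← zer_cv k c hc S (by omega), heq, zer_cv k c' hc' S' (by omega)]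
    subst e1
    have e2 := congrFun heq ⟨k - 1, by omega⟩
    unfold cv at e2
    simp only at e2
    rw [← hS, rp_lead, rp_lead] at e2
    rw [e2]

omit [Fintype F] [DecidableEq F] in
theorem closure_gen [Fintype F] (k : ℕ) (hk : k ≤ Fintype.card F) :
    AddSubgroup.closure (Set.range (gen (F := F) k)) = ⊤ := by
  classical
  set K := AddSubgroup.closure (Set.range (gen (F := F) k)) with hK
  have hsm : ∀ u ∈ K, ∀ a : F, a • u ∈ K := by
    intro u hu
    refine AddSubgroup.closure_induction (p := fun u _ => ∀ a : F, a • u ∈ K) ?_ ?_ ?_ ?_ hu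
    · rintro _ ⟨⟨x, y⟩, rfl⟩ a
      by_cases ha : a = 0
      · rw [ha, zero_smul]
        exact K.zero_mem
      · apply AddSubgroup.subset_closure
        refine ⟨(x, ⟨a * y.1, mul_ne_zero ha y.2⟩), ?_⟩
        funext j
        simp only [gen, Pi.smul_apply, smul_eq_mul]
        ring
    · intro a
      rw [smul_zero]
      exact K.zero_mem
    · intro x y _ _ hx hy a
      rw [smul_add]
      exact K.add_mem (hx a) (hy a)
    · intro x _ hx a
      rw [smul_neg]
      exact K.neg_mem (hx a)
  obtain ⟨ι⟩ : Nonempty (Fin k ↪ F) := by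
    apply Function.Embedding.nonempty_of_card_le
    rw [Fintype.card_fin]
    exact hk
  have hdet : (Matrix.vandermonde ι).det ≠ 0 := Matrix.det_vandermonde_ne_zero_iff.2 ι.injective
  have hli : LinearIndependent F (fun i => Matrix.vandermonde ι i) :=
    Matrix.linearIndependent_rows_of_det_ne_zero hdet
  have hspan : Submodule.span F (Set.range (fun i => Matrix.vandermonde ι i)) = ⊤ := by
    rcases Nat.eq_zero_or_pos k with h0 | h0
    · subst h0
      exact Subsingleton.elim _ _
    · have : Nonempty (Fin k) := ⟨⟨0, h0⟩⟩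
      apply hli.span_eq_top_of_card_eq_finrank
      simp
  rw [eq_top_iff]
  intro u _
  have hu : u ∈ Submodule.span F (Set.range (fun i => Matrix.vandermonde ι i)) := by
    rw [hspan]
    exact Submodule.mem_top
  refine Submodule.span_induction (p := fun u _ => u ∈ K) ?_ K.zero_mem ?_ ?_ hu
  · rintro _ ⟨i, rfl⟩
    apply AddSubgroup.subset_closure
    refine ⟨(ι i, ⟨1, one_ne_zero⟩), ?_⟩
    funext j
    simp [gen, Matrix.vandermonde]
  · intro x y _ _ hx hy
    exact K.add_mem hx hy
  · intro a x _ hx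
    exact hsm x hx a

end

end TH994.Low
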